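import Pool.Agent.Lib_helper39.COVF.B9
import Pool.Agent.Lib_helper88.NC.Defs

/-!
# COV: the input (COV) of `part_one`
-/

set_option autoImplicit false

namespace Pool.Agent.PENT.COV

open Finset Pool.Agent.PENT.EQ

theorem cov_mem {C1 ρ : ℝ} {X : ℕ} (hC1 : 1 ≤ C1) (hX : 1 ≤ X) (hρ : 1 / C1 ≤ ρ) (hρ1 : ρ ≤ C1)
    {q : ℤ × ℤ × ℤ} (h : q.1 * q.2.2 - q.2.1 ^ 2 = 1 ∧ (X : ℤ) < q.1 ∧
      q.1 ≤ 2 * X ∧ ρ * X < (q.2.1 : ℝ) ∧ (q.2.1 : ℝ) ≤ 2 * ρ * X) :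
    q ∈ Pool.Agent.PATH.NC.AW C1 X := by
  obtain ⟨q1, q2, q3, q4, q5⟩ := h
  have hX0 : (1 : ℝ) ≤ X := by exact_mod_cast hX
  have hρ0 : 0 < ρ := lt_of_lt_of_le (by positivity) hρ
  have hb0 : (0 : ℝ) < (q.2.1 : ℝ) := by
    have : 0 ≤ ρ * X := by positivity
    linarith
  have hb : 0 < q.2.1 := by exact_mod_cast hb0
  have ha : 0 < q.1 := by omega
  have hac : q.1 * q.2.2 = q.2.1 ^ 2 + 1 := by linarith
  have hc : 0 < q.2.2 := by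
    by_contra hc
    push Not at hc
    have := mul_nonpos_of_nonneg_of_nonpos ha.le hc
    nlinarith [sq_nonneg q.2.1]
  have hbC : (q.2.1 : ℝ) ≤ 2 * C1 * X := by
    refine q5.trans ?_
    have := mul_le_mul_of_nonneg_right hρ1 (by linarith : (0 : ℝ) ≤ X)
    linarith
  have haR : (X : ℝ) < (q.1 : ℝ) := by exact_mod_cast q2
  have hacR : (q.1 : ℝ) * (q.2.2 : ℝ) = (q.2.1 : ℝ) ^ 2 + 1 := by exact_mod_cast hac
  have hcR : (0 : ℝ) < (q.2.2 : ℝ) := by exact_mod_cast hc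
  have hcC : (q.2.2 : ℝ) ≤ 5 * C1 ^ 2 * X := by
    have h1 : (X : ℝ) * (q.2.2 : ℝ) ≤ (q.2.1 : ℝ) ^ 2 + 1 := by
      rw [← hacR]
      exact mul_le_mul_of_nonneg_right haR.le hcR.le
    have h2 : (q.2.1 : ℝ) ^ 2 ≤ (2 * C1 * X) ^ 2 := pow_le_pow_left₀ hb0.le hbC 2
    have h3 : (1 : ℝ) ≤ (C1 * X) ^ 2 := by
      have : 1 ≤ C1 * X := by nlinarith
      nlinarith
    have h4 : (X : ℝ) * (q.2.2 : ℝ) ≤ X * (5 * C1 ^ 2 * X) := by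
      calc (X : ℝ) * (q.2.2 : ℝ) ≤ (2 * C1 * X) ^ 2 + (C1 * X) ^ 2 := by linarith
        _ = X * (5 * C1 ^ 2 * X) := by ring
    exact le_of_mul_le_mul_left h4 (by linarith)
  unfold Pool.Agent.PATH.NC.AW
  rw [mem_filter, mem_product, mem_product, mem_Ioc, mem_Icc, mem_Icc]
  refine ⟨⟨⟨q2, q3⟩, ⟨by omega, Int.le_floor.2 hbC⟩, by omega, Int.le_floor.2 hcC⟩, q1, ?_⟩
  have h5 : (1 : ℝ) ≤ C1 * ρ := by
    rw [div_le_iff₀ (by linarith)] at hρ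
    linarith
  have h6 : (X : ℝ) ≤ C1 * ρ * X := by
    have := mul_le_mul_of_nonneg_right h5 (by linarith : (0 : ℝ) ≤ X)
    linarith
  have h7 : C1 * (ρ * X) ≤ C1 * (q.2.1 : ℝ) := mul_le_mul_of_nonneg_left q4.le (by linarith)
  linarith

/-- (COV), the input of `part_one` -/
theorem cov_all : ∀ C1 : ℝ, 1 ≤ C1 → ∃ C₂ : ℝ, 0 < C₂ ∧
    ∀ δ : ℝ, 0 < δ → Pool.Agent.PATH.NC.COV δ C1 C₂ := by
  intro C1 hC1
  obtain ⟨C₂, H⟩ := cov_core C1 hC1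
  refine ⟨|C₂| + 1, by positivity, fun δ hδ => ?_⟩
  obtain ⟨c, X₀, hc, hc1, H⟩ := H δ hδ
  refine ⟨c, max X₀ 1, hc, hc1, fun X hX ρ hρ hρ1 => ?_⟩
  have hX1 : X₀ ≤ X := (le_max_left _ _).trans hX
  have hX2 : 1 ≤ X := (le_max_right _ _).trans hX
  obtain ⟨O, h1, h2, h3, h4⟩ := H X hX1 ρ hρ hρ1
  refine ⟨O, fun q hq => cov_mem hC1 hX2 hρ hρ1 (h1 q hq), fun q hq => ?_, ?_, h3, h4⟩
  · obtain ⟨-, -, -, q4, q5⟩ := h1 q hq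
    exact ⟨q4, q5⟩
  · refine h2.trans ?_
    apply mul_le_mul_of_nonneg_right _ (Nat.cast_nonneg X)
    have := le_abs_self C₂
    linarith

end Pool.Agent.PENT.COV
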