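import Pool.Agent.Lib_helper39.COV.Defs
import Pool.Agent.Lib_helper61.FG.DivB
import Pool.Agent.Lib_helper39.PEQF.EE3

/-! block B1 of COV, proved by helper77 -/

/-! block B1 of COV, proved by helper77 -/

set_option autoImplicit false

namespace Pool.Agent.PENT.COV

open Finset Pool.Agent.PENT.EQ

theorem b1_inv (A₁ A₂ : ℕ) (hA : 1 ≤ A₁) (hA2 : A₁ ≤ A₂) :
    ∑ α ∈ Ioc A₁ A₂, (1 : ℝ) / α ≤ ((A₂ : ℝ) - A₁) / A₁ := by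
  have hA0 : (0 : ℝ) < A₁ := by exact_mod_cast hA
  calc ∑ α ∈ Ioc A₁ A₂, (1 : ℝ) / α ≤ ∑ α ∈ Ioc A₁ A₂, (1 : ℝ) / A₁ := by
        apply Finset.sum_le_sum
        intro x hx
        rw [Finset.mem_Ioc] at hx
        apply one_div_le_one_div_of_le hA0
        exact_mod_cast hx.1.le
    _ = ((A₂ : ℝ) - A₁) / A₁ := by
        rw [Finset.sum_const, Nat.card_Ioc, nsmul_eq_mul, Nat.cast_sub hA2]
        ring

/-- B1: the proof of `box_upper_pr` (PEQF/EE3.lean; its lemmas `ee3_rows`, `ee3_err`, `ee3_grow`,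
`row_count` are cited) gives `ΔB ΔC ∑ 1/α + X^(1-c)`; here `∑_{A₁ < α ≤ A₂} 1/α ≤ (A₂-A₁)/A₁`. -/
theorem box_upper2_pr : ∃ c X₀ : ℝ, 0 < c ∧ c ≤ 1 / 100 ∧ 2 ≤ X₀ ∧ ∀ X : ℝ, X₀ ≤ X →
    ∀ (A₁ A₂ : ℕ) (B₁ B₂ C₁ C₂ : ℤ),
    X ^ (1 / 2 - c) ≤ A₁ → A₁ ≤ A₂ → (A₂ : ℝ) ≤ X ^ (1 / 2 + c) → B₁ ≤ B₂ →
    (B₂ : ℝ) - B₁ ≤ X ^ (1 / 2 + c) → C₁ ≤ C₂ → (C₂ : ℝ) - C₁ ≤ X ^ (1 / 2 + c) →
      ((EBox A₁ A₂ B₁ B₂ C₁ C₂).card : ℝ) ≤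
        ((A₂ : ℝ) - A₁) / A₁ * (((B₂ : ℝ) - B₁) * ((C₂ : ℝ) - C₁)) + X ^ (1 - c) := by
  obtain ⟨K₀, hK₀, hdiv⟩ := Pool.Agent.FG61.divisor_bound (ε := 1 / 100) (by norm_num)
  set K : ℝ := max K₀ 1 with hKdef
  have hK : 1 ≤ K := le_max_right _ _
  refine ⟨1 / 100, max 2 ((20806 * K ^ 2) ^ (20 : ℕ)), by norm_num, le_rfl, le_max_left _ _, ?_⟩
  intro X hX A₁ A₂ B₁ B₂ C₁ C₂ hA₁ hA₂ hA₂' hB hB' hC hC'
  have hX2 : 2 ≤ X := le_trans (le_max_left _ _) hX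
  have hX0 : 0 < X := by linarith
  have hX1 : 1 ≤ X := by linarith
  have hA1 : 1 ≤ A₁ := by
    have h1 : (1 : ℝ) ≤ X ^ (1 / 2 - 1 / 100 : ℝ) := Real.one_le_rpow hX1 (by norm_num)
    have h2 : (1 : ℝ) ≤ A₁ := le_trans h1 hA₁
    exact_mod_cast h2
  have hKX : 20806 * K ^ 2 ≤ X ^ (5 / 100 : ℝ) := by
    have h1 : (20806 * K ^ 2) ^ (20 : ℕ) ≤ X := le_trans (le_max_right _ _) hX
    have h2 : ((20806 * K ^ 2) ^ (20 : ℕ)) ^ (((20 : ℕ) : ℝ)⁻¹) ≤ X ^ (((20 : ℕ) : ℝ)⁻¹) :=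
      Real.rpow_le_rpow (by positivity) h1 (by norm_num)
    rw [Real.pow_rpow_inv_natCast (by positivity) (by norm_num)] at h2
    rw [show (5 / 100 : ℝ) = ((20 : ℕ) : ℝ)⁻¹ by norm_num]
    exact h2
  obtain ⟨β₀, γ₀, δ₀, hrows⟩ := ee3_rows A₁ A₂ B₁ B₂ C₁ C₂
  rw [hrows]
  have hrow : ∀ α ∈ Ioc A₁ A₂, ((Nrow α 1 β₀ γ₀ δ₀ B₁ B₂ C₁ C₂).card : ℝ) ≤
      ((B₂ : ℝ) - B₁) * ((C₂ : ℝ) - C₁) * (1 / α) + 20806 * K ^ 2 * X ^ (43 / 100 : ℝ) := by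
    intro α hα
    rw [Finset.mem_Ioc] at hα
    have hα1 : 1 ≤ α := by omega
    have hα0 : (0 : ℝ) < α := by exact_mod_cast hα1
    have hαX : (α : ℝ) ≤ X ^ (1 / 2 + 1 / 100 : ℝ) := by
      refine le_trans ?_ hA₂'
      exact_mod_cast hα.2
    have hαX' : X ^ (1 / 2 - 1 / 100 : ℝ) ≤ α := by
      refine le_trans hA₁ ?_
      exact_mod_cast hα.1.le
    have hαle : (α : ℝ) ≤ X := by
      refine le_trans hαX ?_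
      calc X ^ (1 / 2 + 1 / 100 : ℝ) ≤ X ^ (1 : ℝ) :=
            Real.rpow_le_rpow_of_exponent_le hX1 (by norm_num)
        _ = X := Real.rpow_one X
    have hτ : (α.divisors.card : ℝ) ≤ K * X ^ (1 / 100 : ℝ) := by
      calc (α.divisors.card : ℝ) ≤ K₀ * (α : ℝ) ^ (1 / 100 : ℝ) := hdiv α hα1
        _ ≤ K * X ^ (1 / 100 : ℝ) :=
            mul_le_mul (le_max_left _ _) (Real.rpow_le_rpow hα0.le hαle (by norm_num))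
              (by positivity) (by positivity)
    have h1 := row_count α 1 hα1 le_rfl α β₀ γ₀ δ₀ B₁ B₂ C₁ C₂
      (by rw [Nat.cast_one]; exact one_dvd _) (by rw [Nat.cast_one]; exact one_dvd _) hB hC
    have h2 := ee3_err K X hK hX2 α hα1 hαX hαX' hτ ((C₂ : ℝ) - C₁)
      (by have : (C₁ : ℝ) ≤ C₂ := by exact_mod_cast hC
          linarith) hC'
    have h3 := ee3_grow α γ₀ C₁ C₂ hC
    have h4 : (0 : ℝ) ≤ ((B₂ : ℝ) - B₁) / α := by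
      have : (B₁ : ℝ) ≤ B₂ := by exact_mod_cast hB
      apply div_nonneg _ hα0.le
      linarith
    have h5 := (abs_le.mp (le_trans h1 h2)).2
    have h6 : ((B₂ : ℝ) - B₁) / ((α : ℝ) * ((1 : ℕ) : ℝ)) * ((Grow α 1 γ₀ C₁ C₂).card : ℝ) ≤
        ((B₂ : ℝ) - B₁) / α * ((C₂ : ℝ) - C₁) := by
      rw [Nat.cast_one, mul_one]
      exact mul_le_mul_of_nonneg_left h3 h4
    have h7 : ((B₂ : ℝ) - B₁) / α * ((C₂ : ℝ) - C₁) =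
        ((B₂ : ℝ) - B₁) * ((C₂ : ℝ) - C₁) * (1 / α) := by ring
    linarith
  have hBC : (0 : ℝ) ≤ ((B₂ : ℝ) - B₁) * ((C₂ : ℝ) - C₁) := by
    have h1 : (B₁ : ℝ) ≤ B₂ := by exact_mod_cast hB
    have h2 : (C₁ : ℝ) ≤ C₂ := by exact_mod_cast hC
    exact mul_nonneg (by linarith) (by linarith)
  have hcard : ((Ioc A₁ A₂).card : ℝ) ≤ X ^ (1 / 2 + 1 / 100 : ℝ) := by
    refine le_trans ?_ hA₂'
    rw [Nat.card_Ioc]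
    exact_mod_cast Nat.sub_le _ _
  calc ∑ α ∈ Ioc A₁ A₂, ((Nrow α 1 β₀ γ₀ δ₀ B₁ B₂ C₁ C₂).card : ℝ)
      ≤ ∑ α ∈ Ioc A₁ A₂, (((B₂ : ℝ) - B₁) * ((C₂ : ℝ) - C₁) * (1 / α) +
        20806 * K ^ 2 * X ^ (43 / 100 : ℝ)) := Finset.sum_le_sum hrow
    _ = ((B₂ : ℝ) - B₁) * ((C₂ : ℝ) - C₁) * ∑ α ∈ Ioc A₁ A₂, (1 : ℝ) / α +
        ((Ioc A₁ A₂).card : ℝ) * (20806 * K ^ 2 * X ^ (43 / 100 : ℝ)) := by
        rw [Finset.sum_add_distrib, ← Finset.mul_sum, Finset.sum_const, nsmul_eq_mul]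
    _ ≤ ((B₂ : ℝ) - B₁) * ((C₂ : ℝ) - C₁) * (((A₂ : ℝ) - A₁) / A₁) +
        X ^ (1 / 2 + 1 / 100 : ℝ) * (X ^ (5 / 100 : ℝ) * X ^ (43 / 100 : ℝ)) := by
        apply add_le_add
        · exact mul_le_mul_of_nonneg_left (b1_inv A₁ A₂ hA1 hA₂) hBC
        · apply mul_le_mul hcard _ (by positivity) (by positivity)
          exact mul_le_mul_of_nonneg_right hKX (by positivity)
    _ = ((A₂ : ℝ) - A₁) / A₁ * (((B₂ : ℝ) - B₁) * ((C₂ : ℝ) - C₁)) + X ^ (1 - 1 / 100 : ℝ) := by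
        rw [← Real.rpow_add hX0, ← Real.rpow_add hX0, mul_comm (((B₂ : ℝ) - B₁) * ((C₂ : ℝ) - C₁))]
        norm_num

theorem box_upper2 : type_of% @box_upper2_pr := @box_upper2_pr

end Pool.Agent.PENT.COV
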