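import Pool.Agent.Lib_helper39.COV.Defs
import Pool.Agent.Lib_helper39.PEQF.EF3
import Pool.Agent.Lib_helper10.T2F.CNT

/-! block B2 of COV, proved by helper77 -/

/-! block B2 of COV, proved by helper77 -/

set_option autoImplicit false

namespace Pool.Agent.PENT.COV

open Finset Pool.Agent.PENT.EQ

/-- the decomposition of a pair -/
theorem b2_dec (a b : ℕ) (ha : 0 < a) (h : a ∣ b ^ 2 + 1) :
    ∃ α β γ δ : ℤ, α * δ - β * γ = 1 ∧ (a : ℤ) = α ^ 2 + γ ^ 2 ∧ (b : ℤ) = α * β + γ * δ := by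
  obtain ⟨g', hg'⟩ := h
  obtain ⟨α, β, γ, δ, e1, e2, e3, -, -, -⟩ := form_decomp_pr (a : ℤ) (b : ℤ) (g' : ℤ)
    (by exact_mod_cast ha) (by exact_mod_cast hg'.symm)
  exact ⟨α, β, γ, δ, e1, e2, e3⟩

theorem b2_dec2 (y : ℕ × ℕ) : ∃ z : Pool.Agent.T2.G, (0 < y.1 ∧ y.1 ∣ y.2 ^ 2 + 1) →
    ∃ β δ : ℤ, z.re * δ - β * z.im = 1 ∧ (y.1 : ℤ) = z.re ^ 2 + z.im ^ 2 ∧
      (y.2 : ℤ) = z.re * β + z.im * δ := by
  by_cases h : 0 < y.1 ∧ y.1 ∣ y.2 ^ 2 + 1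
  · obtain ⟨α, β, γ, δ, e1, e2, e3⟩ := b2_dec y.1 y.2 h.1 h.2
    exact ⟨⟨α, γ⟩, fun _ => ⟨β, δ, e1, e2, e3⟩⟩
  · exact ⟨0, fun h' => absurd h' h⟩

theorem b2_inj (a b b' : ℕ) (α γ β δ β' δ' : ℤ) (e1 : α * δ - β * γ = 1)
    (e1' : α * δ' - β' * γ = 1) (e2 : (a : ℤ) = α ^ 2 + γ ^ 2) (e3 : (b : ℤ) = α * β + γ * δ)
    (e3' : (b' : ℤ) = α * β' + γ * δ') (hq : b / a = b' / a) : b = b' := by
  have h1 : (b : ℤ) - b' = (a : ℤ) * (β * δ' - β' * δ) := by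
    have t1 : (β * δ' - β' * δ) * α = β - β' := by linear_combination β * e1' - β' * e1
    have t2 : (β * δ' - β' * δ) * γ = δ - δ' := by linear_combination δ * e1' - δ' * e1
    rw [e2, e3, e3']
    linear_combination (-α) * t1 - γ * t2
  have h2 : b % a = b' % a := by
    have h3 : (b' : ℤ) ≡ (b : ℤ) [ZMOD (a : ℤ)] := (Int.modEq_iff_dvd).mpr ⟨_, h1⟩
    have h4 : b' ≡ b [MOD a] := (Int.natCast_modEq_iff).mp h3
    exact h4.symm
  calc b = a * (b / a) + b % a := (Nat.div_add_mod b a).symm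
    _ = a * (b' / a) + b' % a := by rw [hq, h2]
    _ = b' := Nat.div_add_mod b' a

/-- B2: `y = (a, b)`: `form_decomp a b ((b²+1)/a)` gives `(α, β, γ, δ)`. The map
`y ↦ (α + iγ, b / a)` (integer quotient) is injective: `a = α² + γ²`, and for the same `(α, γ)`
two solutions `(β, δ)` differ by `t (α, γ)` (`α δ - β γ = 1`), so `b - b' = t a`; the same quotient
gives `b = b'`. Image: `u < nn z ≤ v`, quotient `≤ 2 C1`: at most `(2 C1 + 1)` times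
`#(Bl v \ Bl u) ≤ π (v - u) + C √v` (`ball_count`, T2F/CNT.lean; `Pool.Agent.T2.nn`). -/
theorem ann_count_pr (C1 : ℝ) (hC1 : 1 ≤ C1) : ∃ C : ℝ, 1 ≤ C ∧ ∀ (X : ℕ) (ρ : ℝ), 1 ≤ X →
    0 < ρ → ρ ≤ C1 → ∀ u v : ℝ, (X : ℝ) ≤ u → u ≤ v → v ≤ 2 * X →
      (((Pool.Agent.PATH.Box X ρ).filter (fun y => u < (y.1 : ℝ) ∧ (y.1 : ℝ) ≤ v)).card : ℝ) ≤
        C * (v - u + Real.sqrt X) := by
  classical
  obtain ⟨C₀, hC₀, hball⟩ := Pool.Agent.T2.ball_count_pr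
  choose z hz using b2_dec2
  refine ⟨(2 * C1 + 1) * (4 + 4 * C₀), by nlinarith, ?_⟩
  intro X ρ hX hρ hρ1 u v hu huv hv
  have hX1 : (1 : ℝ) ≤ X := by exact_mod_cast hX
  have hX0 : (0 : ℝ) < X := by linarith
  set S := (Pool.Agent.PATH.Box X ρ).filter (fun y => u < (y.1 : ℝ) ∧ (y.1 : ℝ) ≤ v) with hS
  have hmem : ∀ y ∈ S, 0 < y.1 ∧ y.1 ∣ y.2 ^ 2 + 1 ∧ X < y.1 ∧ (y.2 : ℝ) ≤ 2 * C1 * X ∧
      u < (y.1 : ℝ) ∧ (y.1 : ℝ) ≤ v := by
    intro y hy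
    rw [hS, Finset.mem_filter] at hy
    obtain ⟨hy1, hy2, hy3⟩ := hy
    unfold Pool.Agent.PATH.Box at hy1
    rw [Finset.mem_filter, Finset.mem_product, Finset.mem_Ioc, Finset.mem_Icc] at hy1
    obtain ⟨⟨⟨h1, h2⟩, h3, h4⟩, h5, h6⟩ := hy1
    refine ⟨by omega, h6, h1, ?_, hy2, hy3⟩
    have h7 : (y.2 : ℝ) ≤ 2 * ρ * X :=
      (Nat.le_floor_iff (by positivity)).mp h4
    have h8 : ρ * X ≤ C1 * X := mul_le_mul_of_nonneg_right hρ1 hX0.le
    nlinarith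
  have hcard : S.card ≤ ((Pool.Agent.T2.Bl v \ Pool.Agent.T2.Bl u) ×ˢ
      Finset.range (⌊2 * C1⌋₊ + 1)).card := by
    apply Finset.card_le_card_of_injOn (fun y => (z y, y.2 / y.1))
    · intro y hy
      have hy' : y ∈ S := hy
      obtain ⟨h1, h2, h3, h4, h5, h6⟩ := hmem y hy'
      obtain ⟨β, δ, e1, e2, e3⟩ := hz y ⟨h1, h2⟩
      have hnn : (Pool.Agent.T2.nn (z y) : ℤ) = y.1 := by
        unfold Pool.Agent.T2.nn
        rw [Int.natCast_natAbs, abs_of_nonneg (GaussianInt.norm_nonneg _), Zsqrtd.norm_def, e2]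
        ring
      have hnn' : Pool.Agent.T2.nn (z y) = y.1 := by exact_mod_cast hnn
      rw [Finset.mem_coe, Finset.mem_product]
      refine ⟨?_, ?_⟩
      · rw [Finset.mem_sdiff, Pool.Agent.T2.mem_Bl_pr, Pool.Agent.T2.mem_Bl_pr, hnn']
        refine ⟨⟨?_, h6⟩, fun h => absurd h.2 (not_le.mpr h5)⟩
        intro h0
        have h0' : z y = 0 := h0
        rw [h0'] at hnn'
        unfold Pool.Agent.T2.nn at hnn'
        simp at hnn'
        omega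
      · rw [Finset.mem_range, Nat.lt_succ_iff]
        apply Nat.le_floor
        have h7 : ((y.2 / y.1 : ℕ) : ℝ) ≤ (y.2 : ℝ) / y.1 := Nat.cast_div_le
        refine le_trans h7 ?_
        have h8 : (X : ℝ) < y.1 := by exact_mod_cast h3
        rw [div_le_iff₀ (by linarith)]
        nlinarith
    · intro y hy y' hy' heq
      obtain ⟨h1, h2, -⟩ := hmem y hy
      obtain ⟨h1', h2', -⟩ := hmem y' hy'
      obtain ⟨β, δ, e1, e2, e3⟩ := hz y ⟨h1, h2⟩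
      obtain ⟨β', δ', e1', e2', e3'⟩ := hz y' ⟨h1', h2'⟩
      have hzz : z y = z y' := congrArg Prod.fst heq
      have hqq : y.2 / y.1 = y'.2 / y'.1 := congrArg Prod.snd heq
      rw [← hzz] at e1' e2' e3'
      have ha : y.1 = y'.1 := by
        have : (y.1 : ℤ) = y'.1 := by rw [e2, e2']
        exact_mod_cast this
      rw [← ha] at hqq
      have hb := b2_inj y.1 y.2 y'.2 (z y).re (z y).im β δ β' δ' e1 e1' e2 e3 e3' hqq
      exact Prod.ext ha hb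
  have hu1 : 1 ≤ u := by linarith
  have hv1 : 1 ≤ v := by linarith
  have hsub : Pool.Agent.T2.Bl u ⊆ Pool.Agent.T2.Bl v := by
    intro w hw
    rw [Pool.Agent.T2.mem_Bl_pr] at hw ⊢
    exact ⟨hw.1, by linarith [hw.2]⟩
  have hdiff : ((Pool.Agent.T2.Bl v \ Pool.Agent.T2.Bl u).card : ℝ) =
      ((Pool.Agent.T2.Bl v).card : ℝ) - (Pool.Agent.T2.Bl u).card := by
    rw [Finset.card_sdiff_of_subset hsub, Nat.cast_sub (Finset.card_le_card hsub)]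
  have hbu := (abs_le.mp (hball u hu1)).1
  have hbv := (abs_le.mp (hball v hv1)).2
  have hsX : 0 ≤ Real.sqrt X := Real.sqrt_nonneg _
  have hsv : Real.sqrt v ≤ 2 * Real.sqrt X := by
    have h1 : Real.sqrt v ≤ Real.sqrt (2 ^ 2 * X) := Real.sqrt_le_sqrt (by linarith)
    rw [Real.sqrt_mul (by norm_num), Real.sqrt_sq (by norm_num)] at h1
    exact h1
  have hsu : Real.sqrt u ≤ 2 * Real.sqrt X :=
    le_trans (Real.sqrt_le_sqrt huv) hsv
  have hD : ((Pool.Agent.T2.Bl v \ Pool.Agent.T2.Bl u).card : ℝ) ≤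
      (4 + 4 * C₀) * (v - u + Real.sqrt X) := by
    rw [hdiff]
    have h1 : C₀ * Real.sqrt v ≤ C₀ * (2 * Real.sqrt X) :=
      mul_le_mul_of_nonneg_left hsv (by linarith)
    have h2 : C₀ * Real.sqrt u ≤ C₀ * (2 * Real.sqrt X) :=
      mul_le_mul_of_nonneg_left hsu (by linarith)
    have h3 : Real.pi * (v - u) ≤ 4 * (v - u) :=
      mul_le_mul_of_nonneg_right Real.pi_le_four (by linarith)
    have h4 : 0 ≤ C₀ * (v - u) := mul_nonneg (by linarith) (by linarith)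
    nlinarith
  have hQ : ((⌊2 * C1⌋₊ : ℕ) : ℝ) ≤ 2 * C1 := Nat.floor_le (by linarith)
  have hfin : (S.card : ℝ) ≤ ((Pool.Agent.T2.Bl v \ Pool.Agent.T2.Bl u).card : ℝ) *
      ((⌊2 * C1⌋₊ : ℝ) + 1) := by
    rw [Finset.card_product, Finset.card_range] at hcard
    exact_mod_cast hcard
  have hnonneg : 0 ≤ (4 + 4 * C₀) * (v - u + Real.sqrt X) :=
    mul_nonneg (by linarith) (by linarith)
  calc (S.card : ℝ) ≤ ((Pool.Agent.T2.Bl v \ Pool.Agent.T2.Bl u).card : ℝ) *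
      ((⌊2 * C1⌋₊ : ℝ) + 1) := hfin
    _ ≤ ((4 + 4 * C₀) * (v - u + Real.sqrt X)) * (2 * C1 + 1) :=
        mul_le_mul hD (by linarith) (by positivity) hnonneg
    _ = (2 * C1 + 1) * (4 + 4 * C₀) * (v - u + Real.sqrt X) := by ring

theorem ann_count : type_of% @ann_count_pr := @ann_count_pr

end Pool.Agent.PENT.COV
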