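import Pool.Agent.Lib_helper39.COV.Defs

/-! block B3 of COV, proved by helper37 -/

/-!
# COV, block B3: additivity of the equidistributed families
-/

set_option autoImplicit false

namespace Pool.Agent.PENT.COV

open Finset Pool.Agent.PENT.EQ

/-- B3: additivity -/
theorem eqfam_union_pr {ι : Type} [DecidableEq ι] (I : Finset ι) (O : ι → Finset (ℤ × ℤ × ℤ))
    (q : ℤ × ℤ × ℤ → ℤ × ℤ × ℤ) (D R : ℝ)
    (hd : ∀ i ∈ I, ∀ j ∈ I, i ≠ j → Disjoint (O i) (O j)) (h : ∀ i ∈ I, EqFam (O i) q D R) :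
    EqFam (I.biUnion O) q D (I.card * R) := by
  intro T hT hc hD f hf hb
  rw [Finset.sum_biUnion (fun i hi j hj hij => hd i hi j hj hij),
    Finset.card_biUnion hd]
  push_cast
  rw [Finset.sum_mul, ← Finset.sum_sub_distrib]
  refine (Finset.abs_sum_le_sum_abs _ _).trans ?_
  refine (Finset.sum_le_card_nsmul _ _ R fun i hi => h i hi T hT hc hD f hf hb).trans ?_
  rw [nsmul_eq_mul]

theorem eqfam_union : type_of% @eqfam_union_pr := @eqfam_union_pr

end Pool.Agent.PENT.COV
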