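import Pool.Agent.Lib_helper39.COV.Defs

/-! block B4 of COV, proved by helper9 -/

set_option autoImplicit false

namespace Pool.Agent.PENT.COV

open Finset Pool.Agent.PENT.EQ

theorem b4_core (a b c d a' b' c' d' : ℤ) (h : a * d - b * c = 1) (h' : a' * d' - b' * c' = 1)
    (p : |c| < a) (q : |c'| < a')
    (e1 : a ^ 2 + c ^ 2 = a' ^ 2 + c' ^ 2) (e2 : a * b + c * d = a' * b' + c' * d')
    (e3 : b ^ 2 + d ^ 2 = b' ^ 2 + d' ^ 2) : a = a' ∧ b = b' ∧ c = c' ∧ d = d' := by
  obtain ⟨p1, p2⟩ := abs_lt.mp p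
  obtain ⟨q1, q2⟩ := abs_lt.mp q
  have hx : (a' * d - b' * c) ^ 2 + (c' * d - d' * c) ^ 2 = 1 := by
    have : (a' * d - b' * c) ^ 2 + (c' * d - d' * c) ^ 2 =
        d ^ 2 * (a' ^ 2 + c' ^ 2) - 2 * c * d * (a' * b' + c' * d') + c ^ 2 * (b' ^ 2 + d' ^ 2) := by
      ring
    rw [this, ← e1, ← e2, ← e3]
    have : d ^ 2 * (a ^ 2 + c ^ 2) - 2 * c * d * (a * b + c * d) + c ^ 2 * (b ^ 2 + d ^ 2) =
        (a * d - b * c) ^ 2 := by ring
    rw [this, h]
    norm_num
  have ho : (a' * d - b' * c) * (b' * a - a' * b) + (c' * d - d' * c) * (d' * a - c' * b) = 0 := by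
    have : (a' * d - b' * c) * (b' * a - a' * b) + (c' * d - d' * c) * (d' * a - c' * b) =
        -(b * d) * (a' ^ 2 + c' ^ 2) + (a * d + b * c) * (a' * b' + c' * d') -
          a * c * (b' ^ 2 + d' ^ 2) := by
      ring
    rw [this, ← e1, ← e2, ← e3]
    ring
  have hdet : (a' * d - b' * c) * (d' * a - c' * b) - (b' * a - a' * b) * (c' * d - d' * c) = 1 := by
    have : (a' * d - b' * c) * (d' * a - c' * b) - (b' * a - a' * b) * (c' * d - d' * c) =
        (a * d - b * c) * (a' * d' - b' * c') := by ring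
    rw [this, h, h']
    norm_num
  have r1 : a' = (a' * d - b' * c) * a + (b' * a - a' * b) * c := by linear_combination (-a') * h
  have r2 : b' = (a' * d - b' * c) * b + (b' * a - a' * b) * d := by linear_combination (-b') * h
  have r3 : c' = (c' * d - d' * c) * a + (d' * a - c' * b) * c := by linear_combination (-c') * h
  have r4 : d' = (c' * d - d' * c) * b + (d' * a - c' * b) * d := by linear_combination (-d') * h
  generalize a' * d - b' * c = x at *
  generalize c' * d - d' * c = y at *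
  generalize b' * a - a' * b = u at *
  generalize d' * a - c' * b = v at *
  have hxb : x ^ 2 ≤ 1 := by nlinarith [sq_nonneg y]
  have hyb : y ^ 2 ≤ 1 := by nlinarith [sq_nonneg x]
  have hx1 : -1 ≤ x ∧ x ≤ 1 := ⟨by nlinarith, by nlinarith⟩
  have hy1 : -1 ≤ y ∧ y ≤ 1 := ⟨by nlinarith, by nlinarith⟩
  obtain ⟨x1, x2⟩ := hx1
  obtain ⟨y1, y2⟩ := hy1
  interval_cases x
  · -- x = -1
    have hy0 : y = 0 := by nlinarith
    subst hy0
    have hu : u = 0 := by linarith
    subst hu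
    exfalso
    linarith
  · -- x = 0
    interval_cases y
    · have hv : v = 0 := by linarith
      subst hv
      have hu : u = 1 := by linarith
      subst hu
      exfalso
      linarith
    · norm_num at hx
    · have hv : v = 0 := by linarith
      subst hv
      have hu : u = -1 := by linarith
      subst hu
      exfalso
      linarith
  · -- x = 1
    have hy0 : y = 0 := by nlinarith
    subst hy0
    have hu : u = 0 := by linarith
    subst hu
    have hv : v = 1 := by linarith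
    subst hv
    refine ⟨by linarith, by linarith, by linarith, by linarith⟩

theorem QQ_inj_cone_pr (g g' : ℤ × ℤ × ℤ × ℤ) (h : g.1 * g.2.2.2 - g.2.1 * g.2.2.1 = 1)
    (h' : g'.1 * g'.2.2.2 - g'.2.1 * g'.2.2.1 = 1) (p1 : |g.2.2.1| < g.1)
    (q1 : |g'.2.2.1| < g'.1) (hQ : QQ g = QQ g') : g = g' := by
  unfold QQ at hQ
  rw [Prod.ext_iff, Prod.ext_iff] at hQ
  obtain ⟨e1, e2, e3⟩ := hQ
  obtain ⟨r1, r2, r3, r4⟩ := b4_core g.1 g.2.1 g.2.2.1 g.2.2.2 g'.1 g'.2.1 g'.2.2.1 g'.2.2.2 h h'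
    p1 q1 e1 e2 e3
  exact Prod.ext r1 (Prod.ext r2 (Prod.ext r3 r4))

theorem QQ_inj_cone : type_of% @QQ_inj_cone_pr := @QQ_inj_cone_pr

end Pool.Agent.PENT.COV
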