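import Pool.Agent.Lib_helper39.COV.Defs

/-! block B5 of COV, proved by helper86 -/

/-! Block B5 of COV -/

set_option autoImplicit false

namespace Pool.Agent.PENT.COV

open Finset Pool.Agent.PENT.EQ

/-- B5: `|Re(1/z) - Re(1/z₀)| ≤ |z - z₀| / (|z| |z₀|)`, `|z - z₀| ≤ √2 D`, `|z| ≥ √X`,
`|z₀| ≥ √X - √2 D ≥ √X / 2`. -/
theorem Lo_close_pr (C1 ρ : ℝ) (X D i : ℕ) (j : ℤ) (hρ : 0 < ρ) (hρ1 : ρ ≤ C1) (hD : 1 ≤ D)
    (hDX : 8 * (D : ℝ) ≤ Real.sqrt X) (α γ : ℝ) (h1 : (i : ℝ) * D < α)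
    (h2 : α ≤ ((i : ℝ) + 1) * D) (h3 : (j : ℝ) * D < γ) (h4 : γ ≤ ((j : ℝ) + 1) * D)
    (h5 : (X : ℝ) ≤ α ^ 2 + γ ^ 2) :
    |ρ * X * (α / (α ^ 2 + γ ^ 2)) - Lo ρ X D i j| ≤ 3 * C1 * D := by
  have hD1 : (1 : ℝ) ≤ D := by exact_mod_cast hD
  set z : ℂ := ⟨α, γ⟩ with hz
  set z0 : ℂ := ⟨(i : ℝ) * D, (j : ℝ) * D⟩ with hz0
  have hn : ‖z‖ ^ 2 = α ^ 2 + γ ^ 2 := by
    rw [← Complex.normSq_eq_norm_sq, Complex.normSq_apply]
    simp only [hz]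
    ring
  have hX0 : (0 : ℝ) ≤ X := Nat.cast_nonneg X
  have hr : Real.sqrt X ≤ ‖z‖ := by
    rw [Real.sqrt_le_left (norm_nonneg z), hn]
    exact h5
  have hrD : 8 * (D : ℝ) ≤ ‖z‖ := le_trans hDX hr
  have hzpos : 0 < ‖z‖ := by linarith
  have hd : ‖z - z0‖ ≤ 3 / 2 * D := by
    have e1 : ‖z - z0‖ ^ 2 = (α - (i : ℝ) * D) ^ 2 + (γ - (j : ℝ) * D) ^ 2 := by
      rw [← Complex.normSq_eq_norm_sq, Complex.normSq_apply]
      simp only [hz, hz0, Complex.sub_re, Complex.sub_im]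
      ring
    have e2 : (α - (i : ℝ) * D) ^ 2 ≤ (D : ℝ) ^ 2 := by
      apply pow_le_pow_left₀ (by linarith)
      linarith
    have e3 : (γ - (j : ℝ) * D) ^ 2 ≤ (D : ℝ) ^ 2 := by
      apply pow_le_pow_left₀ (by linarith)
      linarith
    apply le_of_sq_le_sq _ (by positivity)
    rw [e1]
    nlinarith
  have hz0n : 13 / 16 * ‖z‖ ≤ ‖z0‖ := by
    have e1 : ‖z‖ - ‖z0‖ ≤ ‖z - z0‖ := norm_sub_norm_le z z0
    linarith
  have hz0pos : 0 < ‖z0‖ := by nlinarith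
  have hzne : z ≠ 0 := norm_pos_iff.mp hzpos
  have hz0ne : z0 ≠ 0 := norm_pos_iff.mp hz0pos
  have hre : α / (α ^ 2 + γ ^ 2) = (z⁻¹).re := by
    rw [Complex.inv_re, Complex.normSq_eq_norm_sq, hn]
  have hre0 : ((i : ℝ) * D) / (((i : ℝ) * D) ^ 2 + ((j : ℝ) * D) ^ 2) = (z0⁻¹).re := by
    rw [Complex.inv_re, Complex.normSq_apply]
    simp only [hz0]
    congr 1
    ring
  have e4 : ρ * X * (α / (α ^ 2 + γ ^ 2)) - Lo ρ X D i j = ρ * X * (z⁻¹ - z0⁻¹).re := by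
    unfold Lo
    rw [hre, hre0, Complex.sub_re]
    ring
  rw [e4, abs_mul, abs_of_nonneg (by positivity : (0 : ℝ) ≤ ρ * X)]
  have e5 : |(z⁻¹ - z0⁻¹).re| ≤ ‖z⁻¹ - z0⁻¹‖ := Complex.abs_re_le_norm _
  have e6 : ‖z⁻¹ - z0⁻¹‖ = ‖z - z0‖ / (‖z‖ * ‖z0‖) := by
    rw [inv_sub_inv hzne hz0ne, norm_div, norm_mul, norm_sub_rev]
  have e7 : ‖z - z0‖ / (‖z‖ * ‖z0‖) ≤ (3 / 2 * D) / (‖z‖ * (13 / 16 * ‖z‖)) := by
    apply div_le_div₀ (by positivity) hd (by positivity)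
    exact mul_le_mul_of_nonneg_left hz0n hzpos.le
  have e8 : (X : ℝ) ≤ ‖z‖ ^ 2 := by rw [hn]; exact h5
  calc ρ * X * |(z⁻¹ - z0⁻¹).re| ≤ ρ * X * ((3 / 2 * D) / (‖z‖ * (13 / 16 * ‖z‖))) := by
        apply mul_le_mul_of_nonneg_left _ (by positivity)
        rw [e6] at e5
        exact le_trans e5 e7
    _ = (24 / 13 * D * ρ) * (X / ‖z‖ ^ 2) := by
        field_simp
        ring
    _ ≤ (24 / 13 * D * ρ) * 1 := by
        apply mul_le_mul_of_nonneg_left _ (by positivity)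
        rw [div_le_one (by positivity)]
        exact e8
    _ ≤ 3 * C1 * D := by
        have : D * ρ ≤ D * C1 := mul_le_mul_of_nonneg_left hρ1 (by positivity)
        nlinarith

theorem Lo_close : type_of% @Lo_close_pr := @Lo_close_pr

end Pool.Agent.PENT.COV
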