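import Pool.Agent.Lib_helper39.COV.Defs
import Pool.Agent.Lib_helper39.PEQF.GC4
import Pool.Agent.Lib_helper10.T2F.BAS
import Pool.Agent.Lib_helper10.T2F.CNT
import Pool.Agent.Lib_helper39.COVF.B5

/-! block B6 of COV, proved by helper86 -/

/-! Block B6 of COV -/

set_option autoImplicit false

namespace Pool.Agent.PENT.COV

open Finset Pool.Agent.PENT.EQ

theorem b6_sq_lower {j D γ : ℤ} (hD : 0 < D) (h1 : j * D < γ) (h2 : γ ≤ (j + 1) * D) :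
    min (j ^ 2) ((j + 1) ^ 2) * D ^ 2 ≤ γ ^ 2 := by
  rcases le_or_gt 0 j with h | h
  · have h3 : 0 ≤ j * D := mul_nonneg h hD.le
    calc min (j ^ 2) ((j + 1) ^ 2) * D ^ 2 ≤ j ^ 2 * D ^ 2 :=
          mul_le_mul_of_nonneg_right (min_le_left _ _) (by positivity)
      _ = (j * D) ^ 2 := by ring
      _ ≤ γ ^ 2 := pow_le_pow_left₀ h3 h1.le 2
  · have h3 : 0 ≤ -((j + 1) * D) := by nlinarith
    calc min (j ^ 2) ((j + 1) ^ 2) * D ^ 2 ≤ (j + 1) ^ 2 * D ^ 2 :=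
          mul_le_mul_of_nonneg_right (min_le_right _ _) (by positivity)
      _ = (-((j + 1) * D)) ^ 2 := by ring
      _ ≤ (-γ) ^ 2 := pow_le_pow_left₀ h3 (by linarith) 2
      _ = γ ^ 2 := by ring

theorem b6_sq_upper {j D γ : ℤ} (hD : 0 < D) (h1 : j * D < γ) (h2 : γ ≤ (j + 1) * D) :
    γ ^ 2 ≤ max (j ^ 2) ((j + 1) ^ 2) * D ^ 2 := by
  rcases le_or_gt 0 γ with h | h
  · calc γ ^ 2 ≤ ((j + 1) * D) ^ 2 := pow_le_pow_left₀ h h2 2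
      _ = (j + 1) ^ 2 * D ^ 2 := by ring
      _ ≤ _ := mul_le_mul_of_nonneg_right (le_max_right _ _) (by positivity)
  · calc γ ^ 2 = (-γ) ^ 2 := by ring
      _ ≤ (-(j * D)) ^ 2 := pow_le_pow_left₀ (by linarith) (by linarith) 2
      _ = j ^ 2 * D ^ 2 := by ring
      _ ≤ _ := mul_le_mul_of_nonneg_right (le_max_left _ _) (by positivity)

/-- B6: everything in the inner box over a good square is a form of the box. `K = 6 C1 + 1`; use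
`Lo_close`; `a b-part: α b = β a + γ`, `|γ| ≤ a`. -/
theorem inside_pr (C1 ρ : ℝ) (X D i : ℕ) (j : ℤ) (hC1 : 1 ≤ C1) (hρ : 0 < ρ) (hρ1 : ρ ≤ C1)
    (hD : 1 ≤ D) (hDX : 8 * (D : ℝ) ≤ Real.sqrt X) (hG : Gq X D i j) (t : ℤ × ℤ × ℤ)
    (ht : t ∈ gdB (6 * C1 + 1) ρ X D i j) :
    t.1 * (emat t).2.2.2 - t.2.1 * t.2.2 = 1 ∧ |t.2.2| < t.1 ∧
    (QQ (emat t)).1 * (QQ (emat t)).2.2 - (QQ (emat t)).2.1 ^ 2 = 1 ∧
    (X : ℤ) < (QQ (emat t)).1 ∧ (QQ (emat t)).1 ≤ 2 * X ∧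
    ρ * X < ((QQ (emat t)).2.1 : ℝ) ∧ ((QQ (emat t)).2.1 : ℝ) ≤ 2 * ρ * X := by
  obtain ⟨g1, g2, g3, g4, g5⟩ := hG
  unfold gdB sqB at ht
  obtain ⟨⟨h1, h2, h3, h4, h5, h6⟩, h7⟩ := gc4_mat ht
  obtain ⟨α, β, γ⟩ := t
  set δ : ℤ := (emat (α, β, γ)).2.2.2 with hδ
  have hQ1 : (QQ (emat (α, β, γ))).1 = α ^ 2 + γ ^ 2 := rfl
  have hQ2 : (QQ (emat (α, β, γ))).2.1 = α * β + γ * δ := rfl
  have hQ3 : (QQ (emat (α, β, γ))).2.2 = β ^ 2 + δ ^ 2 := rfl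
  simp only at h1 h2 h3 h4 h5 h6 h7
  push_cast at h1 h2
  rw [hQ1, hQ2, hQ3]
  simp only
  have hD0 : (0 : ℤ) < D := by exact_mod_cast hD
  have hi0 : (0 : ℤ) ≤ i := Int.natCast_nonneg i
  have hiD : (0 : ℤ) ≤ i * D := mul_nonneg hi0 hD0.le
  have hα0 : 0 < α := lt_of_le_of_lt hiD h1
  have hdet : α * δ - β * γ = 1 := by linarith
  have hγα : |γ| < α := by
    rw [abs_lt]
    constructor
    · have : -((i : ℤ) * D) ≤ j * D := by nlinarith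
      linarith
    · have : (j + 1) * (D : ℤ) ≤ i * D := mul_le_mul_of_nonneg_right g3 hD0.le
      linarith
  have ha1 : (X : ℤ) < α ^ 2 + γ ^ 2 := by
    have e1 := b6_sq_lower hD0 h5 h6
    have e2 : ((i : ℤ) * D) ^ 2 < α ^ 2 := pow_lt_pow_left₀ h1 hiD (by norm_num)
    calc (X : ℤ) ≤ ((i : ℤ) ^ 2 + min (j ^ 2) ((j + 1) ^ 2)) * (D : ℤ) ^ 2 := g4
      _ = ((i : ℤ) * D) ^ 2 + min (j ^ 2) ((j + 1) ^ 2) * (D : ℤ) ^ 2 := by ring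
      _ < α ^ 2 + γ ^ 2 := by linarith
  have ha2 : α ^ 2 + γ ^ 2 ≤ 2 * X := by
    have e1 := b6_sq_upper hD0 h5 h6
    have e2 : α ^ 2 ≤ (((i : ℤ) + 1) * D) ^ 2 := pow_le_pow_left₀ hα0.le h2 2
    calc α ^ 2 + γ ^ 2 ≤ (((i : ℤ) + 1) * D) ^ 2 +
          max (j ^ 2) ((j + 1) ^ 2) * (D : ℤ) ^ 2 := by linarith
      _ = (((i : ℤ) + 1) ^ 2 + max (j ^ 2) ((j + 1) ^ 2)) * (D : ℤ) ^ 2 := by ring
      _ ≤ 2 * X := g5
  -- real numbers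
  have hα0R : (0 : ℝ) < α := by exact_mod_cast hα0
  have r1 : (i : ℝ) * D < α := by exact_mod_cast h1
  have r2 : (α : ℝ) ≤ ((i : ℝ) + 1) * D := by exact_mod_cast h2
  have r5 : (j : ℝ) * D < γ := by exact_mod_cast h5
  have r6 : (γ : ℝ) ≤ ((j : ℝ) + 1) * D := by exact_mod_cast h6
  have ra : (X : ℝ) ≤ (α : ℝ) ^ 2 + (γ : ℝ) ^ 2 := by
    have : (X : ℝ) < (α : ℝ) ^ 2 + (γ : ℝ) ^ 2 := by exact_mod_cast ha1
    exact this.le
  have hclose := Lo_close C1 ρ X D i j hρ hρ1 hD hDX α γ r1 r2 r5 r6 ra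
  rw [abs_le] at hclose
  set a : ℝ := (α : ℝ) ^ 2 + (γ : ℝ) ^ 2 with ha
  have hD1 : (1 : ℝ) ≤ D := by exact_mod_cast hD
  have hγa : |(γ : ℝ)| ≤ a := by
    have e1 : |(γ : ℝ)| < α := by
      have : ((|γ| : ℤ) : ℝ) < α := by exact_mod_cast hγα
      rwa [Int.cast_abs] at this
    have e2 : (1 : ℝ) ≤ α := by exact_mod_cast hα0
    have e3 : (0 : ℝ) ≤ (γ : ℝ) ^ 2 := sq_nonneg _
    nlinarith
  rw [abs_le] at hγa
  have hapos : 0 < a := by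
    have : (0 : ℝ) < (α : ℝ) ^ 2 := by positivity
    have e3 : (0 : ℝ) ≤ (γ : ℝ) ^ 2 := sq_nonneg _
    linarith
  have hb : (α : ℝ) * (((α * β + γ * δ : ℤ)) : ℝ) = β * a + γ := by
    have e1 : (α : ℝ) * δ = β * γ + 1 := by exact_mod_cast h7
    push_cast
    rw [ha]
    linear_combination (γ : ℝ) * e1
  have hβ1 : Lo ρ X D i j + (6 * C1 + 1) * D < β := by
    have := Int.ceil_le.mp (le_refl ⌈Lo ρ X D i j + (6 * C1 + 1) * D⌉)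
    have e1 : ((⌈Lo ρ X D i j + (6 * C1 + 1) * D⌉ : ℤ) : ℝ) < β := by exact_mod_cast h3
    linarith
  have hβ2 : (β : ℝ) ≤ 2 * Lo ρ X D i j - (6 * C1 + 1) * D := by
    have := Int.le_floor.mp (le_refl ⌊2 * Lo ρ X D i j - (6 * C1 + 1) * D⌋)
    have e1 : (β : ℝ) ≤ ((⌊2 * Lo ρ X D i j - (6 * C1 + 1) * D⌋ : ℤ) : ℝ) := by exact_mod_cast h4
    linarith
  have hC1D : 0 ≤ C1 * D := by positivity
  set T : ℝ := ρ * X * (α / a) with hT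
  have hTa : T * a = ρ * X * α := by
    rw [hT]
    field_simp
  refine ⟨hdet, hγα, ?_, ha1, ha2, ?_, ?_⟩
  · have : (α ^ 2 + γ ^ 2) * (β ^ 2 + δ ^ 2) - (α * β + γ * δ) ^ 2 = (α * δ - β * γ) ^ 2 := by
      ring
    rw [this, hdet]
    norm_num
  · have e1 : T + D < β := by nlinarith [hclose.1, hclose.2]
    have e2 : (T + D) * a < β * a := mul_lt_mul_of_pos_right e1 hapos
    have e3 : (1 : ℝ) * a ≤ D * a := mul_le_mul_of_nonneg_right hD1 hapos.le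
    have e4 : α * (ρ * X) < α * (((α * β + γ * δ : ℤ)) : ℝ) := by
      rw [hb]
      nlinarith [hγa.1]
    exact lt_of_mul_lt_mul_left e4 hα0R.le
  · have e1 : (β : ℝ) ≤ 2 * T - D := by nlinarith [hclose.1, hclose.2]
    have e2 : β * a ≤ (2 * T - D) * a := mul_le_mul_of_nonneg_right e1 hapos.le
    have e3 : (1 : ℝ) * a ≤ D * a := mul_le_mul_of_nonneg_right hD1 hapos.le
    have e4 : α * (((α * β + γ * δ : ℤ)) : ℝ) ≤ α * (2 * ρ * X) := by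
      rw [hb]
      nlinarith [hγa.2]
    exact le_of_mul_le_mul_left e4 hα0R

theorem inside : type_of% @inside_pr := @inside_pr

end Pool.Agent.PENT.COV
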