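import Pool.Agent.Lib_helper39.COV.Defs
import Pool.Agent.Lib_helper10.T2F.BAS
import Pool.Agent.Lib_helper10.T2F.CNT
import Pool.Agent.Lib_helper39.COVF.B5

/-! block B7 of COV, proved by helper16 -/

set_option autoImplicit false

namespace Pool.Agent.PENT.COV

open Finset Pool.Agent.PENT.EQ

theorem b7_mem {D i : ℕ} {j B₁ B₂ α β γ : ℤ} (h1 : (i : ℤ) * D < α) (h2 : α ≤ ((i : ℤ) + 1) * D)
    (h3 : j * D < γ) (h4 : γ ≤ (j + 1) * D) (h5 : B₁ < β) (h6 : β ≤ B₂) (h7 : α ∣ β * γ + 1) :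
    (α, β, γ) ∈ sqB D i j B₁ B₂ := by
  unfold sqB EBox
  rw [Finset.mem_filter, Finset.mem_product, Finset.mem_product, Finset.mem_Ioc, Finset.mem_Ioc,
    Finset.mem_Ioc]
  refine ⟨⟨⟨?_, ?_⟩, ⟨h5, h6⟩, ⟨h3, h4⟩⟩, h7⟩
  · push_cast; exact h1
  · push_cast; exact h2

/-- the smallest value on the square -/
theorem b7_low {D : ℕ} {i : ℕ} {j α γ : ℤ} {s : ℝ}
    (h1 : (i : ℤ) * D < α) (h2 : α ≤ ((i : ℤ) + 1) * D) (h3 : j * D < γ)
    (h4 : γ ≤ (j + 1) * D) (hs : (α : ℝ) + |(γ : ℝ)| ≤ 2 * s) :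
    ((α : ℝ) ^ 2 + (γ : ℝ) ^ 2) - 4 * s * D ≤
      ((((i : ℤ) ^ 2 + min (j ^ 2) ((j + 1) ^ 2)) * (D : ℤ) ^ 2 : ℤ) : ℝ) := by
  have h1' : (i : ℝ) * D < α := by exact_mod_cast h1
  have h2' : (α : ℝ) ≤ ((i : ℝ) + 1) * D := by exact_mod_cast h2
  have h3' : (j : ℝ) * D < γ := by exact_mod_cast h3
  have h4' : (γ : ℝ) ≤ ((j : ℝ) + 1) * D := by exact_mod_cast h4
  have hD : (0 : ℝ) ≤ D := Nat.cast_nonneg D
  have hi : (0 : ℝ) ≤ (i : ℝ) * D := by positivity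
  have e1 : (α : ℝ) ^ 2 - ((i : ℝ) * D) ^ 2 ≤ 2 * D * α := by
    have : (α : ℝ) - i * D ≤ D := by linarith
    nlinarith
  rcases le_or_gt 0 j with hj | hj
  · have hmin : min (j ^ 2) ((j + 1) ^ 2) = j ^ 2 := min_eq_left (by nlinarith)
    rw [hmin]
    have hjr : (0 : ℝ) ≤ j := by exact_mod_cast hj
    have hjD : (0 : ℝ) ≤ (j : ℝ) * D := by positivity
    have hg : |(γ : ℝ)| = γ := abs_of_nonneg (by linarith)
    have e2 : (γ : ℝ) ^ 2 - ((j : ℝ) * D) ^ 2 ≤ 2 * D * γ := by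
      have : (γ : ℝ) - j * D ≤ D := by linarith
      nlinarith
    push_cast
    rw [hg] at hs
    have e3 : 2 * (D : ℝ) * ((α : ℝ) + γ) ≤ 2 * D * (2 * s) :=
      mul_le_mul_of_nonneg_left hs (by positivity)
    nlinarith
  · have hj1 : j + 1 ≤ 0 := by omega
    have hmin : min (j ^ 2) ((j + 1) ^ 2) = (j + 1) ^ 2 := min_eq_right (by nlinarith)
    rw [hmin]
    have hjr : (j : ℝ) + 1 ≤ 0 := by exact_mod_cast hj1
    have hjD : ((j : ℝ) + 1) * D ≤ 0 := mul_nonpos_of_nonpos_of_nonneg hjr hD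
    have hg : |(γ : ℝ)| = -γ := abs_of_nonpos (by linarith)
    have e2 : (γ : ℝ) ^ 2 - (((j : ℝ) + 1) * D) ^ 2 ≤ 2 * D * (-γ) := by
      have : ((j : ℝ) + 1) * D - γ ≤ D := by linarith
      nlinarith
    push_cast
    rw [hg] at hs
    have e3 : 2 * (D : ℝ) * ((α : ℝ) + -γ) ≤ 2 * D * (2 * s) :=
      mul_le_mul_of_nonneg_left hs (by positivity)
    nlinarith

/-- the largest value on the square -/
theorem b7_upp {D : ℕ} {i : ℕ} {j α γ : ℤ} {s : ℝ}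
    (h1 : (i : ℤ) * D < α) (h2 : α ≤ ((i : ℤ) + 1) * D) (h3 : j * D < γ)
    (h4 : γ ≤ (j + 1) * D) (hs : (α : ℝ) + |(γ : ℝ)| ≤ 2 * s) (hDs : 8 * (D : ℝ) ≤ s) :
    (((((i : ℤ) + 1) ^ 2 + max (j ^ 2) ((j + 1) ^ 2)) * (D : ℤ) ^ 2 : ℤ) : ℝ) ≤
      ((α : ℝ) ^ 2 + (γ : ℝ) ^ 2) + 8 * s * D := by
  have h1' : (i : ℝ) * D < α := by exact_mod_cast h1
  have h2' : (α : ℝ) ≤ ((i : ℝ) + 1) * D := by exact_mod_cast h2
  have h3' : (j : ℝ) * D < γ := by exact_mod_cast h3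
  have h4' : (γ : ℝ) ≤ ((j : ℝ) + 1) * D := by exact_mod_cast h4
  have hD : (0 : ℝ) ≤ D := Nat.cast_nonneg D
  have hi : (0 : ℝ) ≤ (i : ℝ) * D := by positivity
  have hs0 : 0 ≤ s := by linarith
  have e1 : (((i : ℝ) + 1) * D) ^ 2 - (α : ℝ) ^ 2 ≤ 2 * D * α + D ^ 2 := by
    have : ((i : ℝ) + 1) * D - α ≤ D := by linarith
    nlinarith
  have e4 : 2 * (D : ℝ) ^ 2 ≤ s * D := by nlinarith
  rcases le_or_gt 0 j with hj | hj
  · have hmax : max (j ^ 2) ((j + 1) ^ 2) = (j + 1) ^ 2 := max_eq_right (by nlinarith)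
    rw [hmax]
    have hjr : (0 : ℝ) ≤ j := by exact_mod_cast hj
    have hjD : (0 : ℝ) ≤ (j : ℝ) * D := by positivity
    have hg : |(γ : ℝ)| = γ := abs_of_nonneg (by linarith)
    have e2 : (((j : ℝ) + 1) * D) ^ 2 - (γ : ℝ) ^ 2 ≤ 2 * D * γ + D ^ 2 := by
      have : ((j : ℝ) + 1) * D - γ ≤ D := by linarith
      nlinarith
    push_cast
    rw [hg] at hs
    have e3 : 2 * (D : ℝ) * ((α : ℝ) + γ) ≤ 2 * D * (2 * s) :=
      mul_le_mul_of_nonneg_left hs (by positivity)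
    nlinarith
  · have hj1 : j + 1 ≤ 0 := by omega
    have hmax : max (j ^ 2) ((j + 1) ^ 2) = j ^ 2 := max_eq_left (by nlinarith)
    rw [hmax]
    have hjr : (j : ℝ) + 1 ≤ 0 := by exact_mod_cast hj1
    have hjD : ((j : ℝ) + 1) * D ≤ 0 := mul_nonpos_of_nonpos_of_nonneg hjr hD
    have hg : |(γ : ℝ)| = -γ := abs_of_nonpos (by linarith)
    have e2 : ((j : ℝ) * D) ^ 2 - (γ : ℝ) ^ 2 ≤ 2 * D * (-γ) + D ^ 2 := by
      have : γ - (j : ℝ) * D ≤ D := by linarith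
      nlinarith
    push_cast
    rw [hg] at hs
    have e3 : 2 * (D : ℝ) * ((α : ℝ) + -γ) ≤ 2 * D * (2 * s) :=
      mul_le_mul_of_nonneg_left hs (by positivity)
    nlinarith

theorem b7_L {C1 ρ X D α β γ a b L : ℝ} (hD : 1 ≤ D) (hC : 0 ≤ C1 * D) (ha : 0 < a) (hα : 0 < α)
    (hb : ρ * X < b) (c1 : -(3 * C1 * D) ≤ ρ * X * (α / a) - L) (d2 : γ / a ≤ 1)
    (hβ : β = α * b / a - γ / a) : L - (6 * C1 + 1) * D < β := by
  have h5 : ρ * X * (α / a) < α * b / a := by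
    have h6 : ρ * X * (α / a) = α * (ρ * X) / a := by ring
    rw [h6]
    exact div_lt_div_of_pos_right (mul_lt_mul_of_pos_left hb hα) ha
  have hex : (6 * C1 + 1) * D = 6 * (C1 * D) + D := by ring
  have hex2 : 3 * C1 * D = 3 * (C1 * D) := by ring
  rw [hex2] at c1
  rw [hex, hβ]
  linarith

theorem b7_U {C1 ρ X D α β γ a b L : ℝ} (hD : 1 ≤ D) (ha : 0 < a) (hα : 0 < α)
    (hb : b ≤ 2 * ρ * X) (c2 : ρ * X * (α / a) - L ≤ 3 * C1 * D) (d1 : -1 ≤ γ / a)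
    (hβ : β = α * b / a - γ / a) : β ≤ 2 * L + (6 * C1 + 1) * D := by
  have h5 : α * b / a ≤ 2 * (ρ * X * (α / a)) := by
    have h6 : 2 * (ρ * X * (α / a)) = α * (2 * ρ * X) / a := by ring
    rw [h6]
    exact div_le_div_of_nonneg_right (mul_le_mul_of_nonneg_left hb hα.le) ha.le
  have hex : (6 * C1 + 1) * D = 6 * (C1 * D) + D := by ring
  have hex2 : 3 * C1 * D = 3 * (C1 * D) := by ring
  rw [hex2] at c2
  rw [hex, hβ]
  linarith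

theorem b7_bpos {C1 ρ X s b α β γ a : ℝ} (hC1 : 1 ≤ C1) (hρ : 1 / C1 ≤ ρ) (hρ0 : 0 < ρ)
    (hs : 4 * C1 ≤ s) (hs2 : s ^ 2 = X) (hb : ρ * X < b) (hα : 0 < α) (hγ : γ ≤ α) (ha : 0 < a)
    (hk : α * b = β * a + γ) : 0 < β := by
  have h5 : 1 ≤ ρ * C1 := by
    rw [div_le_iff₀ (by linarith)] at hρ
    exact hρ
  have h6 : ρ * (16 * C1 ^ 2) ≤ ρ * X := by
    apply mul_le_mul_of_nonneg_left _ hρ0.le
    rw [← hs2]
    have := pow_le_pow_left₀ (by linarith) hs 2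
    linarith [this]
  have h7 : 16 ≤ ρ * (16 * C1 ^ 2) := by
    have : ρ * (16 * C1 ^ 2) = 16 * (ρ * C1) * C1 := by ring
    rw [this]
    nlinarith
  have hb1 : 1 < b := by linarith
  have h8 : 0 < β * a := by
    have h9 : α * 1 < α * b := mul_lt_mul_of_pos_left hb1 hα
    linarith
  exact (mul_pos_iff_of_pos_right ha).1 h8

theorem b7_bupp {C1 ρ X s b α β γ a : ℝ} (hC1 : 1 ≤ C1) (hρ1 : ρ ≤ C1) (hX : 0 ≤ X)
    (hs0 : 4 ≤ s) (hs2 : s ^ 2 = X) (hb : b ≤ 2 * ρ * X) (hα : 0 < α) (ha : 0 < a)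
    (hαa : α * s ≤ a) (d1 : -1 ≤ γ / a) (hβ : β = α * b / a - γ / a) : β ≤ 3 * C1 * s := by
  have h5 : α * b / a ≤ 2 * C1 * s := by
    rw [div_le_iff₀ ha]
    calc α * b ≤ α * (2 * ρ * X) := mul_le_mul_of_nonneg_left hb hα.le
      _ ≤ α * (2 * C1 * X) := by
          apply mul_le_mul_of_nonneg_left _ hα.le
          exact mul_le_mul_of_nonneg_right (by linarith) hX
      _ = 2 * C1 * s * (α * s) := by rw [← hs2]; ring
      _ ≤ 2 * C1 * s * a := mul_le_mul_of_nonneg_left hαa (by positivity)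
  have h6 : 1 ≤ C1 * s := by nlinarith
  rw [hβ]
  linarith

theorem b7_base {s X a α γ : ℝ} (hs2 : s ^ 2 = X) (hs4 : 4 ≤ s) (hA : a = α ^ 2 + γ ^ 2)
    (h1 : X < a) (h2 : a ≤ 2 * X) (hα : 0 < α) (hγ : γ ^ 2 ≤ α ^ 2) :
    0.7 * s < α ∧ α ≤ 2 * s ∧ α + |γ| ≤ 2 * s ∧ α * s ≤ a ∧ |γ| ≤ a := by
  have hγα : |γ| ≤ α := abs_le_of_sq_le_sq hγ hα.le
  have hαlow : 0.7 * s < α := by
    by_contra hcon
    push Not at hcon
    have : α ^ 2 ≤ (0.7 * s) ^ 2 := pow_le_pow_left₀ hα.le hcon 2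
    nlinarith
  have hαupp : α ≤ 2 * s := by
    by_contra hcon
    push Not at hcon
    have : (2 * s) ^ 2 < α ^ 2 := pow_lt_pow_left₀ hcon (by linarith) (by norm_num)
    nlinarith [sq_nonneg γ]
  have hsum : α + |γ| ≤ 2 * s := by
    by_contra hcon
    push Not at hcon
    have h5 : (2 * s) ^ 2 < (α + |γ|) ^ 2 := pow_lt_pow_left₀ hcon (by linarith) (by norm_num)
    have h6 : |γ| ^ 2 = γ ^ 2 := sq_abs _
    nlinarith [sq_nonneg (α - |γ|)]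
  have hαa : α * s ≤ a := by
    rw [hA]
    by_contra hcon
    push Not at hcon
    have h6 : α < s := by nlinarith [sq_nonneg γ]
    have h7 : s ^ 2 < α ^ 2 + γ ^ 2 := by rw [hs2, ← hA]; exact h1
    nlinarith
  refine ⟨hαlow, hαupp, hsum, hαa, ?_⟩
  nlinarith

theorem cover_pr (C1 ρ : ℝ) (X D : ℕ) (hC1 : 1 ≤ C1) (hρ : 1 / C1 ≤ ρ) (hρ1 : ρ ≤ C1)
    (hD : 1 ≤ D) (hDX : 8 * (D : ℝ) ≤ Real.sqrt X) (hX : 4 * C1 ≤ Real.sqrt X)
    (y : ℕ × ℕ) (hy : y ∈ Pool.Agent.PATH.Box X ρ) :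
    ∃ (t : ℤ × ℤ × ℤ) (i : ℕ) (j : ℤ), (QQ (emat t)).1 = y.1 ∧ (QQ (emat t)).2.1 = y.2 ∧
      Real.sqrt X ≤ 2 * (i : ℝ) * D ∧ (i : ℝ) * D ≤ 2 * Real.sqrt X ∧ -(i : ℤ) - 2 ≤ j ∧ j ≤ i ∧
      ((Gq X D i j ∧ t ∈ gdB (6 * C1 + 1) ρ X D i j) ∨
        t ∈ sqB D i j ⌊Lo ρ X D i j - (6 * C1 + 1) * D⌋ ⌈Lo ρ X D i j + (6 * C1 + 1) * D⌉ ∨
        t ∈ sqB D i j ⌊2 * Lo ρ X D i j - (6 * C1 + 1) * D⌋
          ⌈2 * Lo ρ X D i j + (6 * C1 + 1) * D⌉ ∨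
        ((j = i ∨ j = -(i : ℤ) - 1 ∨ j = -(i : ℤ) - 2) ∧
          t ∈ sqB D i j 0 ⌈3 * C1 * Real.sqrt X⌉) ∨
        (y.1 : ℝ) ≤ X + 8 * Real.sqrt X * D ∨ 2 * (X : ℝ) - 8 * Real.sqrt X * D < y.1) := by
  obtain ⟨a, b⟩ := y
  unfold Pool.Agent.PATH.Box at hy
  rw [Finset.mem_filter, Finset.mem_product, Finset.mem_Ioc, Finset.mem_Icc] at hy
  obtain ⟨⟨⟨ha1, ha2⟩, hb1, hb2⟩, hb3, hab⟩ := hy
  simp only at ha1 ha2 hb1 hb2 hb3 hab
  set s := Real.sqrt X with hs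
  have hs2 : s ^ 2 = X := Real.sq_sqrt (Nat.cast_nonneg X)
  have hs4 : 4 ≤ s := by linarith
  have hρ0 : 0 < ρ := lt_of_lt_of_le (by positivity) hρ
  -- the decomposition
  obtain ⟨g', hg'⟩ := hab
  have hapos : (0 : ℤ) < (a : ℤ) := by
    have : 0 < a := by omega
    exact_mod_cast this
  have hgg : (a : ℤ) * (g' : ℤ) = (b : ℤ) ^ 2 + 1 := by exact_mod_cast hg'.symm
  obtain ⟨α, β, γ, δ, hdet, hA, hB, _, hα, hγ⟩ := form_decomp (a : ℤ) (b : ℤ) (g' : ℤ) hapos hgg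
  have hdiv : α * δ = β * γ + 1 := by linarith
  have hem : emat (α, β, γ) = (α, β, γ, δ) := by
    unfold emat
    show (α, β, γ, (β * γ + 1) / α) = _
    rw [← hdiv, Int.mul_ediv_cancel_left _ hα.ne']
  have hkey : α * b = β * a + γ := by
    rw [hB, hA]
    have : γ * (α * δ) = γ * (β * γ + 1) := by rw [hdiv]
    linarith
  have hDpos : (0 : ℤ) < (D : ℤ) := by exact_mod_cast hD
  -- the square
  set iz : ℤ := (α - 1) / D with hiz
  set j : ℤ := (γ - 1) / D with hj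
  have hiz0 : 0 ≤ iz := Int.ediv_nonneg (by omega) hDpos.le
  obtain ⟨i, hi⟩ := Int.eq_ofNat_of_zero_le hiz0
  have f1 : iz * D ≤ α - 1 := Int.ediv_mul_le _ hDpos.ne'
  have f2 : α - 1 < (iz + 1) * D := Int.lt_ediv_add_one_mul_self _ hDpos
  have f3 : j * D ≤ γ - 1 := Int.ediv_mul_le _ hDpos.ne'
  have f4 : γ - 1 < (j + 1) * D := Int.lt_ediv_add_one_mul_self _ hDpos
  rw [hi] at f1 f2
  have h1 : (i : ℤ) * D < α := by omega
  have h2 : α ≤ ((i : ℤ) + 1) * D := by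
    have : α - 1 < ((i : ℤ) + 1) * D := f2
    omega
  have h3 : j * D < γ := by omega
  have h4 : γ ≤ (j + 1) * D := by omega
  have h1' : (i : ℝ) * D < α := by exact_mod_cast h1
  have h2' : (α : ℝ) ≤ ((i : ℝ) + 1) * D := by exact_mod_cast h2
  have h3' : (j : ℝ) * D < γ := by exact_mod_cast h3
  have h4' : (γ : ℝ) ≤ ((j : ℝ) + 1) * D := by exact_mod_cast h4
  -- real bounds
  have hDr : (1 : ℝ) ≤ D := by exact_mod_cast hD
  have hαr : (0 : ℝ) < α := by exact_mod_cast hα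
  have hγr : (γ : ℝ) ^ 2 ≤ (α : ℝ) ^ 2 := by exact_mod_cast hγ
  have hAr : (a : ℝ) = (α : ℝ) ^ 2 + (γ : ℝ) ^ 2 := by exact_mod_cast hA
  have ha1r : (X : ℝ) < a := by exact_mod_cast ha1
  have ha2r : (a : ℝ) ≤ 2 * X := by exact_mod_cast ha2
  have hγα : |(γ : ℝ)| ≤ α := abs_le_of_sq_le_sq hγr hαr.le
  obtain ⟨hαlow, hαupp, hsum, hαa, hγa⟩ := b7_base hs2 hs4 hAr ha1r ha2r hαr hγr
  have hiD : s ≤ 2 * (i : ℝ) * D := by linarith
  have hiD2 : (i : ℝ) * D ≤ 2 * s := by linarith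
  have hγα' : -(α : ℤ) ≤ γ ∧ γ ≤ α := by
    have := abs_le.1 hγα
    constructor
    · have := this.1; exact_mod_cast this
    · have := this.2; exact_mod_cast this
  have hji : j ≤ i := by
    have h5 : j * D < ((i : ℤ) + 1) * D := by omega
    have := lt_of_mul_lt_mul_right h5 hDpos.le
    omega
  have hji2 : -(i : ℤ) - 2 ≤ j := by
    have h5 : -(((i : ℤ) + 1) * D) ≤ (j + 1) * D := by omega
    have h6 : (-((i : ℤ) + 1)) * D ≤ (j + 1) * D := by linarith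
    have := le_of_mul_le_mul_right h6 hDpos
    omega
  have hdvd : α ∣ β * γ + 1 := ⟨δ, hdiv.symm⟩
  have hkeyr : (α : ℝ) * b = β * a + γ := by exact_mod_cast hkey
  have hapr : (0 : ℝ) < a := by exact_mod_cast hapos
  have hXpos : (0 : ℝ) < X := by rw [← hs2]; positivity
  have hb2r : (b : ℝ) ≤ 2 * ρ * X := by
    have h5 : ((⌊2 * ρ * X⌋₊ : ℕ) : ℝ) ≤ 2 * ρ * X := Nat.floor_le (by positivity)
    have h6 : (b : ℝ) ≤ ((⌊2 * ρ * X⌋₊ : ℕ) : ℝ) := by exact_mod_cast hb2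
    linarith
  -- `α / a` and `γ / a`
  have hγa1 : |(γ : ℝ) / a| ≤ 1 := by
    rw [abs_div, abs_of_pos hapr, div_le_one hapr]
    exact hγa
  have hβeq : (β : ℝ) = α * b / a - γ / a := by
    field_simp
    linarith
  refine ⟨(α, β, γ), i, j, ?_, ?_, hiD, hiD2, hji2, hji, ?_⟩
  · rw [hem]; exact hA.symm
  · rw [hem]; exact hB.symm
  by_cases hann1 : (a : ℝ) ≤ X + 8 * s * D
  · exact Or.inr (Or.inr (Or.inr (Or.inr (Or.inl hann1))))
  by_cases hann2 : 2 * (X : ℝ) - 8 * s * D < a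
  · exact Or.inr (Or.inr (Or.inr (Or.inr (Or.inr hann2))))
  push Not at hann1 hann2
  by_cases hcone : -(i : ℤ) ≤ j ∧ j + 1 ≤ i
  · -- the square is good
    have hG : Gq X D i j := by
      refine ⟨?_, hcone.1, hcone.2, ?_, ?_⟩
      · by_contra hcon
        have : i = 0 := by omega
        rw [this] at hiD
        push_cast at hiD
        linarith
      · have h5 := b7_low h1 h2 h3 h4 hsum
        have h6 : (X : ℝ) ≤ ((((i : ℤ) ^ 2 + min (j ^ 2) ((j + 1) ^ 2)) * (D : ℤ) ^ 2 : ℤ) : ℝ) := by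
          refine le_trans ?_ h5
          rw [← hAr]
          have : 0 ≤ s * D := by positivity
          linarith
        exact_mod_cast h6
      · have h5 := b7_upp h1 h2 h3 h4 hsum hDX
        have h6 : (((((i : ℤ) + 1) ^ 2 + max (j ^ 2) ((j + 1) ^ 2)) * (D : ℤ) ^ 2 : ℤ) : ℝ) ≤
            2 * (X : ℝ) := by
          refine le_trans h5 ?_
          rw [← hAr]
          linarith
        exact_mod_cast h6
    have hclose := Lo_close C1 ρ X D i j hρ0 hρ1 hD hDX (α : ℝ) (γ : ℝ) h1' h2' h3' h4'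
      (by rw [← hAr]; exact ha1r.le)
    rw [← hAr] at hclose
    obtain ⟨c1, c2⟩ := abs_le.1 hclose
    obtain ⟨d1, d2⟩ := abs_le.1 hγa1
    have hC1D : 0 ≤ C1 * D := by positivity
    have hL : Lo ρ X D i j - (6 * C1 + 1) * D < β :=
      b7_L hDr hC1D hapr hαr hb3 c1 d2 hβeq
    have hU : (β : ℝ) ≤ 2 * Lo ρ X D i j + (6 * C1 + 1) * D :=
      b7_U hDr hapr hαr hb2r c2 d1 hβeq
    by_cases hm1 : β ≤ ⌈Lo ρ X D i j + (6 * C1 + 1) * D⌉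
    · right; left
      refine b7_mem h1 h2 h3 h4 ?_ hm1 hdvd
      rw [Int.floor_lt]
      exact hL
    push Not at hm1
    by_cases hm2 : β ≤ ⌊2 * Lo ρ X D i j - (6 * C1 + 1) * D⌋
    · left
      exact ⟨hG, b7_mem h1 h2 h3 h4 hm1 hm2 hdvd⟩
    push Not at hm2
    right; right; left
    refine b7_mem h1 h2 h3 h4 hm2 ?_ hdvd
    have h5 : (β : ℝ) ≤ (⌈2 * Lo ρ X D i j + (6 * C1 + 1) * D⌉ : ℝ) := hU.trans (Int.le_ceil _)
    exact_mod_cast h5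
  · right; right; right; left
    refine ⟨?_, ?_⟩
    · rw [not_and_or] at hcone
      omega
    · refine b7_mem h1 h2 h3 h4 ?_ ?_ hdvd
      · -- `β > 0`
        have h8 : (0 : ℝ) < β :=
          b7_bpos hC1 hρ hρ0 hX hs2 hb3 hαr (abs_le.1 hγα).2 hapr hkeyr
        exact_mod_cast h8
      · have h6 : (β : ℝ) ≤ 3 * C1 * s :=
          b7_bupp hC1 hρ1 hXpos.le hs4 hs2 hb2r hαr hapr hαa (abs_le.1 hγa1).1 hβeq
        have h7 : (β : ℝ) ≤ (⌈3 * C1 * s⌉ : ℝ) := h6.trans (Int.le_ceil _)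
        exact_mod_cast h7

theorem cover : type_of% @cover_pr := @cover_pr

end Pool.Agent.PENT.COV
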