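import Pool.Agent.Lib_helper39.COV.Defs
import Pool.Agent.Lib_helper39.COVF.B1
import Pool.Agent.Lib_helper39.COVF.B2
import Pool.Agent.Lib_helper39.COVF.B3
import Pool.Agent.Lib_helper39.COVF.B4
import Pool.Agent.Lib_helper39.COVF.B5
import Pool.Agent.Lib_helper39.COVF.B6
import Pool.Agent.Lib_helper39.COVF.B7

/-!
# COV, block B8: assembly
-/

set_option autoImplicit false

namespace Pool.Agent.PENT.COV

open Finset Pool.Agent.PENT.EQ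

theorem b8_mem {D i : ℕ} {j B₁ B₂ : ℤ} {t : ℤ × ℤ × ℤ} (ht : t ∈ sqB D i j B₁ B₂) :
    (i : ℤ) * D < t.1 ∧ t.1 ≤ ((i : ℤ) + 1) * D ∧ B₁ < t.2.1 ∧ t.2.1 ≤ B₂ ∧ j * D < t.2.2 ∧
      t.2.2 ≤ (j + 1) * D := by
  obtain ⟨⟨h1, h2, h3, h4, h5, h6⟩, -⟩ := gc4_mat ht
  push_cast at h1 h2
  exact ⟨h1, h2, h3, h4, h5, h6⟩

theorem b8_disj {D i i' : ℕ} {j j' B₁ B₂ B₁' B₂' : ℤ} (hD : 1 ≤ D) (h : (i, j) ≠ (i', j')) :
    Disjoint (sqB D i j B₁ B₂) (sqB D i' j' B₁' B₂') := by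
  rw [Finset.disjoint_left]
  intro t ht ht'
  obtain ⟨h1, h2, -, -, h5, h6⟩ := b8_mem ht
  obtain ⟨g1, g2, -, -, g5, g6⟩ := b8_mem ht'
  have hD0 : (0 : ℤ) < D := by exact_mod_cast hD
  apply h
  have e1 : (i : ℤ) < i' + 1 := by
    by_contra hc
    push Not at hc
    have := mul_le_mul_of_nonneg_right hc hD0.le
    linarith
  have e2 : (i' : ℤ) < i + 1 := by
    by_contra hc
    push Not at hc
    have := mul_le_mul_of_nonneg_right hc hD0.le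
    linarith
  have e3 : j < j' + 1 := by
    by_contra hc
    push Not at hc
    have := mul_le_mul_of_nonneg_right hc hD0.le
    linarith
  have e4 : j' < j + 1 := by
    by_contra hc
    push Not at hc
    have := mul_le_mul_of_nonneg_right hc hD0.le
    linarith
  have e5 : i = i' := by omega
  have e6 : j = j' := by omega
  rw [e5, e6]

theorem b8_Lo {C1 ρ : ℝ} {X D i : ℕ} {j : ℤ} (hρ : 0 < ρ) (hρ1 : ρ ≤ C1)
    (hs : 0 < Real.sqrt X) (hi : Real.sqrt X ≤ 2 * (i : ℝ) * D) :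
    0 ≤ Lo ρ X D i j ∧ Lo ρ X D i j ≤ 2 * C1 * Real.sqrt X := by
  have hX : Real.sqrt X ^ 2 = (X : ℝ) := Real.sq_sqrt (Nat.cast_nonneg X)
  have hA : 0 < (i : ℝ) * D := by linarith
  unfold Lo
  set a : ℝ := (i : ℝ) * D with ha
  set s : ℝ := Real.sqrt X with hsd
  constructor
  · positivity
  · have h1 : a / (a ^ 2 + ((j : ℝ) * D) ^ 2) ≤ a / a ^ 2 := by
      apply div_le_div_of_nonneg_left hA.le (by positivity)
      have := sq_nonneg ((j : ℝ) * D)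
      linarith
    have h2 : a / a ^ 2 = 1 / a := by field_simp
    have h3 : 1 / a ≤ 2 / s := by
      rw [div_le_div_iff₀ hA hs]
      linarith
    have h4 : ρ * X * (a / (a ^ 2 + ((j : ℝ) * D) ^ 2)) ≤ ρ * X * (2 / s) := by
      apply mul_le_mul_of_nonneg_left _ (by positivity)
      linarith
    have h5 : ρ * X * (2 / s) = 2 * ρ * s := by
      rw [← hX]
      field_simp
    rw [h5] at h4
    refine h4.trans ?_
    have := mul_le_mul_of_nonneg_right hρ1 hs.le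
    linarith

theorem b8_empty (O : Finset (ℤ × ℤ × ℤ)) (q : ℤ × ℤ × ℤ → ℤ × ℤ × ℤ) (D R : ℝ) (hR : 0 ≤ R)
    (h : O = ∅) : EqFam O q D R := by
  intro T _ _ _ f _ _
  rw [h]
  simpa using hR

/-- the size conditions -/
theorem b8_big (T c : ℝ) (hc : 0 < c) (hc1 : c ≤ 1 / 200) : ∃ X₀ : ℕ, ∀ X : ℕ,
    X₀ ≤ X → (1 : ℝ) ≤ X ∧ T ≤ (X : ℝ) ^ c ∧ T ≤ Real.sqrt X ∧
      ∀ c' : ℝ, 2 * c ≤ c' → (X : ℝ) ^ (1 / 2 - c') * T ≤ Real.sqrt X ∧
        T * Real.sqrt X ≤ (X : ℝ) ^ (1 / 2 + c') ∧ T * (X : ℝ) ^ (1 - c') ≤ (X : ℝ) ^ (1 - c) ∧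
        T * (X : ℝ) ^ (1 - c') ≤ X := by
  have ev : ∀ᶠ X : ℝ in Filter.atTop, 1 ≤ X ∧ T ≤ X ^ c := by
    filter_upwards [Filter.eventually_ge_atTop 1,
      (tendsto_rpow_atTop hc).eventually_ge_atTop T] with X a b
    exact ⟨a, b⟩
  obtain ⟨X₃, hX₃⟩ := Filter.eventually_atTop.mp ev
  refine ⟨⌈X₃⌉₊, fun X hX => ?_⟩
  have hXr : X₃ ≤ (X : ℝ) := (Nat.le_ceil X₃).trans (by exact_mod_cast hX)
  obtain ⟨h1, h2⟩ := hX₃ (X : ℝ) hXr
  have hX0 : (0 : ℝ) < X := by linarith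
  have hs : Real.sqrt X = (X : ℝ) ^ (1 / 2 : ℝ) := Real.sqrt_eq_rpow _
  have h3 : T ≤ Real.sqrt X := by
    rw [hs]
    refine h2.trans ?_
    exact Real.rpow_le_rpow_of_exponent_le h1 (by linarith)
  refine ⟨h1, h2, h3, fun c' hc' => ?_⟩
  have h4 : T ≤ (X : ℝ) ^ c' := h2.trans (Real.rpow_le_rpow_of_exponent_le h1 (by linarith))
  have h5 : T ≤ (X : ℝ) ^ (c' - c) := h2.trans (Real.rpow_le_rpow_of_exponent_le h1 (by linarith))
  refine ⟨?_, ?_, ?_, ?_⟩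
  · rw [hs]
    calc (X : ℝ) ^ (1 / 2 - c') * T ≤ (X : ℝ) ^ (1 / 2 - c') * (X : ℝ) ^ c' :=
          mul_le_mul_of_nonneg_left h4 (by positivity)
      _ = (X : ℝ) ^ (1 / 2 : ℝ) := by
          rw [← Real.rpow_add hX0]
          congr 1
          ring
  · rw [hs]
    calc T * (X : ℝ) ^ (1 / 2 : ℝ) ≤ (X : ℝ) ^ c' * (X : ℝ) ^ (1 / 2 : ℝ) :=
          mul_le_mul_of_nonneg_right h4 (by positivity)
      _ = (X : ℝ) ^ (1 / 2 + c') := by
          rw [← Real.rpow_add hX0]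
          congr 1
          ring
  · calc T * (X : ℝ) ^ (1 - c') ≤ (X : ℝ) ^ (c' - c) * (X : ℝ) ^ (1 - c') :=
          mul_le_mul_of_nonneg_right h5 (by positivity)
      _ = (X : ℝ) ^ (1 - c) := by
          rw [← Real.rpow_add hX0]
          congr 1
          ring
  · calc T * (X : ℝ) ^ (1 - c') ≤ (X : ℝ) ^ c' * (X : ℝ) ^ (1 - c') :=
          mul_le_mul_of_nonneg_right h4 (by positivity)
      _ = X := by
          rw [← Real.rpow_add hX0]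
          have : c' + (1 - c') = 1 := by ring
          rw [this, Real.rpow_one]

/-- the index set -/
noncomputable def b8_I (X D N : ℕ) : Finset (ℕ × ℤ) := by
  classical
  exact ((range (N + 1)) ×ˢ (Icc (-(N : ℤ) - 2) N)).filter (fun v =>
    Real.sqrt X ≤ 2 * (v.1 : ℝ) * D ∧ (v.1 : ℝ) * D ≤ 2 * Real.sqrt X ∧
      -(v.1 : ℤ) - 2 ≤ v.2 ∧ v.2 ≤ v.1)

theorem b8_mem_I {X D N : ℕ} {v : ℕ × ℤ} : v ∈ b8_I X D N ↔ v.1 ≤ N ∧
    (Real.sqrt X ≤ 2 * (v.1 : ℝ) * D ∧ (v.1 : ℝ) * D ≤ 2 * Real.sqrt X ∧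
      -(v.1 : ℤ) - 2 ≤ v.2 ∧ v.2 ≤ v.1) := by
  classical
  unfold b8_I
  rw [mem_filter, mem_product, mem_range, mem_Icc]
  constructor
  · rintro ⟨⟨h1, h2, h3⟩, h4⟩
    exact ⟨by omega, h4⟩
  · rintro ⟨h1, h4⟩
    refine ⟨⟨by omega, by omega, by omega⟩, h4⟩

theorem b8_card_I (X D N : ℕ) : ((b8_I X D N).card : ℝ) ≤ ((N : ℝ) + 1) * (2 * N + 3) := by
  classical
  have h1 : (b8_I X D N).card ≤ (N + 1) * (2 * N + 3) := by
    unfold b8_I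
    refine (card_filter_le _ _).trans ?_
    rw [card_product, card_range, Int.card_Icc]
    apply Nat.mul_le_mul_left
    omega
  exact_mod_cast h1

/-- the squares near the cone -/
noncomputable def b8_J (X D N : ℕ) : Finset (ℕ × ℤ) := by
  classical
  exact (b8_I X D N).filter (fun v => v.2 = v.1 ∨ v.2 = -(v.1 : ℤ) - 1 ∨ v.2 = -(v.1 : ℤ) - 2)

theorem b8_card_J (X D N : ℕ) : ((b8_J X D N).card : ℝ) ≤ 3 * ((N : ℝ) + 1) := by
  classical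
  have h1 : b8_J X D N ⊆ ((range (N + 1)).image (fun i : ℕ => (i, (i : ℤ)))) ∪
      (((range (N + 1)).image (fun i : ℕ => (i, -(i : ℤ) - 1))) ∪
      ((range (N + 1)).image (fun i : ℕ => (i, -(i : ℤ) - 2)))) := by
    intro v hv
    unfold b8_J at hv
    rw [mem_filter, b8_mem_I] at hv
    obtain ⟨⟨h1, -⟩, h2⟩ := hv
    rw [mem_union, mem_union, mem_image, mem_image, mem_image]
    rcases h2 with h | h | h
    · exact Or.inl ⟨v.1, mem_range.2 (by omega), Prod.ext rfl h.symm⟩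
    · exact Or.inr (Or.inl ⟨v.1, mem_range.2 (by omega), Prod.ext rfl h.symm⟩)
    · exact Or.inr (Or.inr ⟨v.1, mem_range.2 (by omega), Prod.ext rfl h.symm⟩)
  have h2 := card_le_card h1
  have h3 : (((range (N + 1)).image (fun i : ℕ => (i, (i : ℤ)))) ∪
      (((range (N + 1)).image (fun i : ℕ => (i, -(i : ℤ) - 1))) ∪
      ((range (N + 1)).image (fun i : ℕ => (i, -(i : ℤ) - 2))))).card ≤ 3 * (N + 1) := by
    have e1 := card_image_le (s := range (N + 1)) (f := fun i : ℕ => (i, (i : ℤ)))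
    have e2 := card_image_le (s := range (N + 1)) (f := fun i : ℕ => (i, -(i : ℤ) - 1))
    have e3 := card_image_le (s := range (N + 1)) (f := fun i : ℕ => (i, -(i : ℤ) - 2))
    rw [card_range] at e1 e2 e3
    refine (card_union_le _ _).trans ?_
    have e4 := card_union_le ((range (N + 1)).image (fun i : ℕ => (i, -(i : ℤ) - 1)))
      ((range (N + 1)).image (fun i : ℕ => (i, -(i : ℤ) - 2)))
    omega
  have h4 : (b8_J X D N).card ≤ 3 * (N + 1) := h2.trans h3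
  exact_mod_cast h4

/-- the number of triples of a flat box over a square -/
theorem b8_box {c₂ X₂ : ℝ} (H2 : ∀ X : ℝ, X₂ ≤ X →
    ∀ (A₁ A₂ : ℕ) (B₁ B₂ C₁ C₂ : ℤ),
    X ^ (1 / 2 - c₂) ≤ A₁ → A₁ ≤ A₂ → (A₂ : ℝ) ≤ X ^ (1 / 2 + c₂) → B₁ ≤ B₂ →
    (B₂ : ℝ) - B₁ ≤ X ^ (1 / 2 + c₂) → C₁ ≤ C₂ → (C₂ : ℝ) - C₁ ≤ X ^ (1 / 2 + c₂) →
      ((EBox A₁ A₂ B₁ B₂ C₁ C₂).card : ℝ) ≤
        ((A₂ : ℝ) - A₁) / A₁ * (((B₂ : ℝ) - B₁) * ((C₂ : ℝ) - C₁)) + X ^ (1 - c₂))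
    {X D i : ℕ} {j B₁ B₂ : ℤ} {M : ℝ} (hX : X₂ ≤ X) (hD : 1 ≤ D) (hDX : 8 * (D : ℝ) ≤ Real.sqrt X)
    (hi : Real.sqrt X ≤ 2 * (i : ℝ) * D) (hi2 : (i : ℝ) * D ≤ 2 * Real.sqrt X)
    (h1 : (X : ℝ) ^ (1 / 2 - c₂) * 2 ≤ Real.sqrt X)
    (h2 : 3 * Real.sqrt X ≤ (X : ℝ) ^ (1 / 2 + c₂)) (hM0 : 0 ≤ M) (hM : (B₂ : ℝ) - B₁ ≤ M)
    (hM2 : M ≤ (X : ℝ) ^ (1 / 2 + c₂)) :
    ((sqB D i j B₁ B₂).card : ℝ) ≤ 2 * (D : ℝ) ^ 2 * M / Real.sqrt X + (X : ℝ) ^ (1 - c₂) := by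
  have hD0 : (1 : ℝ) ≤ D := by exact_mod_cast hD
  have hs : 0 < Real.sqrt X := by linarith
  set s : ℝ := Real.sqrt X with hsd
  have hA : 0 < (i : ℝ) * D := by linarith
  have hX0 : (0 : ℝ) < X := Real.sqrt_pos.mp hs
  have hR : 0 ≤ 2 * (D : ℝ) ^ 2 * M / s := by positivity
  have hX1 : 0 ≤ (X : ℝ) ^ (1 - c₂) := by positivity
  by_cases hB : B₁ ≤ B₂
  · have h3 := H2 (X : ℝ) hX (i * D) ((i + 1) * D) B₁ B₂ (j * D) ((j + 1) * D)
      (by push_cast; linarith)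
      (Nat.mul_le_mul_right _ (Nat.le_succ i))
      (by push_cast; nlinarith) hB (hM.trans hM2)
      (by nlinarith)
      (by push_cast; nlinarith)
    unfold sqB
    refine h3.trans ?_
    have e1 : ((((i + 1) * D : ℕ) : ℝ) - ((i * D : ℕ) : ℝ)) / ((i * D : ℕ) : ℝ) =
        (D : ℝ) / ((i : ℝ) * D) := by
      push_cast
      congr 1
      ring
    have e2 : (((j + 1) * (D : ℤ) : ℤ) : ℝ) - ((j * (D : ℤ) : ℤ) : ℝ) = D := by
      push_cast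
      ring
    rw [e1, e2]
    have e3 : (D : ℝ) / ((i : ℝ) * D) ≤ 2 * D / s := by
      rw [div_le_div_iff₀ hA hs]
      nlinarith
    have e4 : (0 : ℝ) ≤ (B₂ : ℝ) - B₁ := by
      have : (B₁ : ℝ) ≤ B₂ := by exact_mod_cast hB
      linarith
    have e5 : (D : ℝ) / ((i : ℝ) * D) * (((B₂ : ℝ) - B₁) * D) ≤ 2 * D / s * (M * D) := by
      apply mul_le_mul e3 _ (by positivity) (by positivity)
      exact mul_le_mul_of_nonneg_right hM (by positivity)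
    have e6 : 2 * (D : ℝ) / s * (M * D) = 2 * (D : ℝ) ^ 2 * M / s := by ring
    linarith
  · have h3 : sqB D i j B₁ B₂ = ∅ := by
      unfold sqB EBox
      rw [Finset.Ioc_eq_empty (a := B₁) (b := B₂) (by omega)]
      simp
    rw [h3, card_empty]
    push_cast
    linarith

end Pool.Agent.PENT.COV
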