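import Pool.Agent.Lib_helper39.COV.Defs
import Pool.Agent.Lib_helper39.COVF.B1
import Pool.Agent.Lib_helper39.COVF.B2
import Pool.Agent.Lib_helper39.COVF.B3
import Pool.Agent.Lib_helper39.COVF.B4
import Pool.Agent.Lib_helper39.COVF.B5
import Pool.Agent.Lib_helper39.COVF.B6
import Pool.Agent.Lib_helper39.COVF.B7
import Pool.Agent.Lib_helper39.COVF.B8
import Pool.Agent.Lib_helper39.COVF.B9c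

/-!
# COV, block B9: the theorem
-/

set_option autoImplicit false

namespace Pool.Agent.PENT.COV

open Finset Pool.Agent.PENT.EQ

theorem b9_mul {T a s : ℝ} (hs : 0 ≤ s) (h : a ≤ T) {E : ℝ} (h2 : T * s ≤ E) : a * s ≤ E :=
  (mul_le_mul_of_nonneg_right h hs).trans h2

/-- the step `D` -/
theorem b9_step {η s : ℝ} (hη0 : 0 < η) (hη1 : η ≤ 1 / 16) (hs : 1 / η ≤ s) :
    ∃ D : ℕ, 1 ≤ D ∧ η * s ≤ D ∧ (D : ℝ) ≤ 2 * (η * s) ∧ 8 * (D : ℝ) ≤ s ∧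
      ∀ i : ℕ, (i : ℝ) * D ≤ 2 * s → i ≤ ⌊2 / η⌋₊ := by
  have hs0 : 0 < s := lt_of_lt_of_le (by positivity) hs
  have hηs : 1 ≤ η * s := by
    rw [div_le_iff₀ hη0] at hs
    linarith
  have hD1 : η * s ≤ (⌈η * s⌉₊ : ℝ) := Nat.le_ceil _
  have hD2 : (⌈η * s⌉₊ : ℝ) ≤ 2 * (η * s) := by
    have h1 : (⌈η * s⌉₊ : ℝ) < η * s + 1 := Nat.ceil_lt_add_one (by positivity)
    linarith
  have hDr : (1 : ℝ) ≤ (⌈η * s⌉₊ : ℝ) := by linarith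
  have hηs16 : η * s ≤ s / 16 := by
    have := mul_le_mul_of_nonneg_right hη1 hs0.le
    linarith
  refine ⟨⌈η * s⌉₊, by exact_mod_cast hDr, hD1, hD2, by linarith, fun i hi => ?_⟩
  apply Nat.le_floor
  rw [le_div_iff₀ hη0]
  have h1 : (i : ℝ) * (η * s) ≤ i * (⌈η * s⌉₊ : ℝ) :=
    mul_le_mul_of_nonneg_left hD1 (Nat.cast_nonneg i)
  have h2 : (i : ℝ) * η * s ≤ 2 * s := by linarith
  exact le_of_mul_le_mul_right h2 hs0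

/-- the bounds for `N = ⌊2/η⌋` -/
theorem b9_N {η : ℝ} (hη0 : 0 < η) (hη1 : η ≤ 1 / 16) :
    (⌊2 / η⌋₊ : ℝ) * η ≤ 2 ∧
      (((⌊2 / η⌋₊ : ℝ) + 1) * (2 * (⌊2 / η⌋₊ : ℝ) + 3)) * η ^ 2 ≤ 10 := by
  have hNη : (⌊2 / η⌋₊ : ℝ) * η ≤ 2 := by
    have h1 : (⌊2 / η⌋₊ : ℝ) ≤ 2 / η := Nat.floor_le (by positivity)
    rw [le_div_iff₀ hη0] at h1
    exact h1
  refine ⟨hNη, ?_⟩
  have h1 : ((⌊2 / η⌋₊ : ℝ) + 1) * η ≤ 2 + 1 / 16 := by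
    have : ((⌊2 / η⌋₊ : ℝ) + 1) * η = (⌊2 / η⌋₊ : ℝ) * η + η := by ring
    linarith
  have h2 : (2 * (⌊2 / η⌋₊ : ℝ) + 3) * η ≤ 4 + 3 / 16 := by
    have : (2 * (⌊2 / η⌋₊ : ℝ) + 3) * η = 2 * ((⌊2 / η⌋₊ : ℝ) * η) + 3 * η := by ring
    linarith
  have h3 : 0 ≤ (2 * (⌊2 / η⌋₊ : ℝ) + 3) * η := by positivity
  calc (((⌊2 / η⌋₊ : ℝ) + 1) * (2 * (⌊2 / η⌋₊ : ℝ) + 3)) * η ^ 2
      = (((⌊2 / η⌋₊ : ℝ) + 1) * η) * ((2 * (⌊2 / η⌋₊ : ℝ) + 3) * η) := by ring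
    _ ≤ (2 + 1 / 16) * (4 + 3 / 16) := mul_le_mul h1 h2 h3 (by norm_num)
    _ ≤ 10 := by norm_num

/-- one `X` -/
theorem b9_fix {c₁ c₂ X₁ X₂ : ℝ} (H1 : ∀ X : ℝ, X₁ ≤ X →
    ∀ (A₁ A₂ : ℕ) (B₁ B₂ C₁ C₂ : ℤ),
    X ^ (1 / 2 - c₁) ≤ A₁ → A₁ ≤ A₂ → (A₂ : ℝ) ≤ X ^ (1 / 2 + c₁) → B₁ ≤ B₂ →
    (B₂ : ℝ) - B₁ ≤ X ^ (1 / 2 + c₁) → C₁ ≤ C₂ → (C₂ : ℝ) - C₁ ≤ X ^ (1 / 2 + c₁) →
      EqFam (EBox A₁ A₂ B₁ B₂ C₁ C₂) (fun t => QQ (emat t)) (X ^ c₁) (X ^ (1 - c₁)))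
    (H2 : ∀ X : ℝ, X₂ ≤ X →
    ∀ (A₁ A₂ : ℕ) (B₁ B₂ C₁ C₂ : ℤ),
    X ^ (1 / 2 - c₂) ≤ A₁ → A₁ ≤ A₂ → (A₂ : ℝ) ≤ X ^ (1 / 2 + c₂) → B₁ ≤ B₂ →
    (B₂ : ℝ) - B₁ ≤ X ^ (1 / 2 + c₂) → C₁ ≤ C₂ → (C₂ : ℝ) - C₁ ≤ X ^ (1 / 2 + c₂) →
      ((EBox A₁ A₂ B₁ B₂ C₁ C₂).card : ℝ) ≤
        ((A₂ : ℝ) - A₁) / A₁ * (((B₂ : ℝ) - B₁) * ((C₂ : ℝ) - C₁)) + X ^ (1 - c₂))
    {C1 Ca δ η c T ρ : ℝ} {X : ℕ} (hC1 : 1 ≤ C1) (hCa : 1 ≤ Ca)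
    (H3 : ∀ u v : ℝ, (X : ℝ) ≤ u → u ≤ v → v ≤ 2 * X →
      (((Pool.Agent.PATH.Box X ρ).filter (fun y => u < (y.1 : ℝ) ∧ (y.1 : ℝ) ≤ v)).card : ℝ) ≤
        Ca * (v - u + Real.sqrt X)) (hρ : 1 / C1 ≤ ρ) (hρ1 : ρ ≤ C1) (hδ : 0 < δ)
    (hη0 : 0 < η) (hη1 : η ≤ 1 / 16)
    (hS : (160 * (4 * (6 * C1 + 1) + 4) + 224 * C1 + 32 * Ca) * η ≤ δ / 2)
    (t1 : 1 / η ≤ T) (t2 : 100 * (6 * C1 + 1) ≤ T)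
    (t3 : ((⌊2 / η⌋₊ : ℝ) + 1) * (2 * (⌊2 / η⌋₊ : ℝ) + 3) ≤ T) (t4 : 108 / (η ^ 2 * δ) ≤ T)
    (t5 : 8 * Ca / δ ≤ T) (t6 : X₁ ≤ T) (t7 : X₂ ≤ T) (t8 : 2 ≤ T) (hc : c ≤ c₁)
    (g1 : (1 : ℝ) ≤ X) (g3 : T ≤ Real.sqrt X) (a1 : (X : ℝ) ^ (1 / 2 - c₁) * T ≤ Real.sqrt X)
    (a2 : T * Real.sqrt X ≤ (X : ℝ) ^ (1 / 2 + c₁)) (a3 : T * (X : ℝ) ^ (1 - c₁) ≤ (X : ℝ) ^ (1 - c))
    (b1 : (X : ℝ) ^ (1 / 2 - c₂) * T ≤ Real.sqrt X)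
    (b2 : T * Real.sqrt X ≤ (X : ℝ) ^ (1 / 2 + c₂)) (b4 : T * (X : ℝ) ^ (1 - c₂) ≤ X) :
    ∃ O : Finset (ℤ × ℤ × ℤ), (∀ q ∈ O, q.1 * q.2.2 - q.2.1 ^ 2 = 1 ∧ (X : ℤ) < q.1 ∧
      q.1 ≤ 2 * X ∧ ρ * X < (q.2.1 : ℝ) ∧ (q.2.1 : ℝ) ≤ 2 * ρ * X) ∧ (O.card : ℝ) ≤ 2 * Ca * X ∧
    (((Pool.Agent.PATH.Box X ρ).filter
      (fun y : ℕ × ℕ => ∀ q ∈ O, q.1 ≠ (y.1 : ℤ) ∨ q.2.1 ≠ (y.2 : ℤ))).card : ℝ) ≤ δ * X ∧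
      EqFam O (fun v => v) ((X : ℝ) ^ c) ((X : ℝ) ^ (1 - c)) := by
  obtain ⟨hN1, hN2⟩ := b9_N hη0 hη1
  obtain ⟨D, hD, hD1, hD2, hDX, hiN⟩ := b9_step hη0 hη1 (t1.trans g3)
  have hDr : (1 : ℝ) ≤ D := by exact_mod_cast hD
  have hX0 : (0 : ℝ) < X := by linarith
  have hs2 : Real.sqrt X ^ 2 = X := Real.sq_sqrt hX0.le
  have hs0 : 0 < Real.sqrt X := Real.sqrt_pos.2 hX0
  have hs1 : 1 ≤ Real.sqrt X := by linarith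
  have hρ0 : 0 < ρ := lt_of_lt_of_le (by positivity) hρ
  have hsX : Real.sqrt X ≤ X := by
    calc Real.sqrt X = 1 * Real.sqrt X := (one_mul _).symm
      _ ≤ Real.sqrt X * Real.sqrt X := mul_le_mul_of_nonneg_right hs1 hs0.le
      _ = X := by rw [← sq, hs2]
  have hTX : T ≤ X := g3.trans hsX
  have p1 : (X : ℝ) ^ (1 / 2 - c₁) * 2 ≤ Real.sqrt X :=
    (mul_le_mul_of_nonneg_left t8 (by positivity)).trans a1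
  have p2 : (X : ℝ) ^ (1 / 2 - c₂) * 2 ≤ Real.sqrt X :=
    (mul_le_mul_of_nonneg_left t8 (by positivity)).trans b1
  refine ⟨b9_O (6 * C1 + 1) ρ X D ⌊2 / η⌋₊, b9_memO hC1 hρ0 hρ1 hD hDX, ?_, ?_, ?_⟩
  · have h1 := b9_cardO (b9_O (6 * C1 + 1) ρ X D ⌊2 / η⌋₊) hρ0 (b9_memO hC1 hρ0 hρ1 hD hDX)
      (H3 (X : ℝ) (2 * X) le_rfl (by linarith) le_rfl)
    refine h1.trans ?_
    have h2 : 2 * (X : ℝ) - X + Real.sqrt X ≤ 2 * X := by linarith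
    calc Ca * (2 * (X : ℝ) - X + Real.sqrt X) ≤ Ca * (2 * X) :=
          mul_le_mul_of_nonneg_left h2 (by linarith)
      _ = 2 * Ca * X := by ring
  · have h := b9_unc H2 hC1 hρ hρ1 (t7.trans hTX) hD hDX (by linarith) hiN H3 rfl p2
      (b9_mul hs0.le (by linarith) b2) (by
        refine le_trans ?_ b2
        have r1 : (2 * (6 * C1 + 1)) * (8 * (D : ℝ)) ≤ (2 * (6 * C1 + 1)) * Real.sqrt X :=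
          mul_le_mul_of_nonneg_left hDX (by linarith)
        have r2 : (100 * (6 * C1 + 1)) * Real.sqrt X ≤ T * Real.sqrt X :=
          mul_le_mul_of_nonneg_right t2 hs0.le
        have r3 : 1 * 1 ≤ C1 * Real.sqrt X := mul_le_mul hC1 hs1 (by norm_num) (by linarith)
        have r4 : 0 ≤ (6 * C1 + 1) * D := by positivity
        nlinarith) (b9_mul hs0.le (by linarith) b2) _ rfl
    refine h.trans ?_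
    apply b9_num (δ := δ) (T := T) (η := η) (by linarith) hC1 hCa hη0 hη1 hδ hS (by positivity)
      hN2 (Nat.cast_nonneg _) hN1 hs1 hs2 hDr hD2 (by positivity) b4 t4 (t5.trans g3)
  · apply b9_eqO H1 hC1 hρ0 hρ1 (t6.trans hTX) g1 hD hDX p1 (b9_mul hs0.le (by linarith) a2) hc
    exact b9_mul (by positivity) ((b8_card_I X D _).trans t3) a3

theorem cov_core (C1 : ℝ) (hC1 : 1 ≤ C1) : ∃ C₂ : ℝ, ∀ δ : ℝ, 0 < δ → ∃ (c : ℝ) (X₀ : ℕ),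
    0 < c ∧ c ≤ 1 / 100 ∧ ∀ X : ℕ, X₀ ≤ X → ∀ ρ : ℝ, 1 / C1 ≤ ρ → ρ ≤ C1 →
    ∃ O : Finset (ℤ × ℤ × ℤ), (∀ q ∈ O, q.1 * q.2.2 - q.2.1 ^ 2 = 1 ∧ (X : ℤ) < q.1 ∧
      q.1 ≤ 2 * X ∧ ρ * X < (q.2.1 : ℝ) ∧ (q.2.1 : ℝ) ≤ 2 * ρ * X) ∧ (O.card : ℝ) ≤ C₂ * X ∧
    (((Pool.Agent.PATH.Box X ρ).filter
      (fun y : ℕ × ℕ => ∀ q ∈ O, q.1 ≠ (y.1 : ℤ) ∨ q.2.1 ≠ (y.2 : ℤ))).card : ℝ) ≤ δ * X ∧
      EqFam O (fun v => v) ((X : ℝ) ^ c) ((X : ℝ) ^ (1 - c)) := by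
  obtain ⟨c₁, X₁, hc₁, hc₁', hX₁, H1⟩ := eq_prod
  obtain ⟨c₂, X₂, hc₂, hc₂', hX₂, H2⟩ := box_upper2
  obtain ⟨Ca, hCa, H3⟩ := ann_count C1 hC1
  refine ⟨2 * Ca, fun δ hδ => ?_⟩
  obtain ⟨S, hS⟩ : ∃ S : ℝ, S = 160 * (4 * (6 * C1 + 1) + 4) + 224 * C1 + 32 * Ca := ⟨_, rfl⟩
  have hS0 : 0 < S := by rw [hS]; positivity
  obtain ⟨η, hη⟩ : ∃ η : ℝ, η = min (1 / 16) (δ / (2 * S)) := ⟨_, rfl⟩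
  have hη0 : 0 < η := by rw [hη]; exact lt_min (by norm_num) (by positivity)
  have hη1 : η ≤ 1 / 16 := by rw [hη]; exact min_le_left _ _
  have hη2 : S * η ≤ δ / 2 := by
    have h1 : η ≤ δ / (2 * S) := by rw [hη]; exact min_le_right _ _
    calc S * η ≤ S * (δ / (2 * S)) := mul_le_mul_of_nonneg_left h1 hS0.le
      _ = δ / 2 := by field_simp
  obtain ⟨c, hc⟩ : ∃ c : ℝ, c = min c₁ c₂ / 2 := ⟨_, rfl⟩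
  have hc0 : 0 < c := by rw [hc]; have := lt_min hc₁ hc₂; linarith
  have hcc1 : 2 * c ≤ c₁ := by rw [hc]; have := min_le_left c₁ c₂; linarith
  have hcc2 : 2 * c ≤ c₂ := by rw [hc]; have := min_le_right c₁ c₂; linarith
  obtain ⟨M, hM⟩ : ∃ M : ℝ, M = ((⌊2 / η⌋₊ : ℝ) + 1) * (2 * (⌊2 / η⌋₊ : ℝ) + 3) := ⟨_, rfl⟩
  have hM0 : 0 ≤ M := by rw [hM]; positivity
  have t1 : 0 < 1 / η := by positivity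
  have t2 : 0 < 108 / (η ^ 2 * δ) := by positivity
  have t3 : 0 < 8 * Ca / δ := by positivity
  have t4 := abs_nonneg X₁
  have t5 := abs_nonneg X₂
  have t6 := le_abs_self X₁
  have t7 := le_abs_self X₂
  obtain ⟨T, hT⟩ : ∃ T : ℝ, T = 2 + 1 / η + 100 * (6 * C1 + 1) + M + 108 / (η ^ 2 * δ) +
    8 * Ca / δ + |X₁| + |X₂| := ⟨_, rfl⟩
  obtain ⟨X₀, hX₀⟩ := b8_big T c hc0 (by linarith)
  have s1 : 1 / η ≤ T := by rw [hT]; linarith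
  have s2 : 100 * (6 * C1 + 1) ≤ T := by rw [hT]; linarith
  have s3 : M ≤ T := by rw [hT]; linarith
  have s4 : 108 / (η ^ 2 * δ) ≤ T := by rw [hT]; linarith
  have s5 : 8 * Ca / δ ≤ T := by rw [hT]; linarith
  have s6 : X₁ ≤ T := by rw [hT]; linarith
  have s7 : X₂ ≤ T := by rw [hT]; linarith
  have s8 : 2 ≤ T := by rw [hT]; linarith
  refine ⟨c, X₀, hc0, by linarith, fun X hX ρ hρ hρ1 => ?_⟩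
  obtain ⟨g1, -, g3, g4⟩ := hX₀ X hX
  obtain ⟨a1, a2, a3, -⟩ := g4 c₁ hcc1
  obtain ⟨b1, b2, -, b4⟩ := g4 c₂ hcc2
  have hρ0 : 0 < ρ := lt_of_lt_of_le (by positivity) hρ
  have hX1 : 1 ≤ X := by exact_mod_cast g1
  rw [hM] at s3
  exact b9_fix H1 H2 hC1 hCa (H3 X ρ hX1 hρ0 hρ1) hρ hρ1 hδ hη0 hη1 (by rw [← hS]; exact hη2) s1 s2
    s3 s4 s5 s6 s7 s8 (by linarith) g1 g3 a1 a2 a3 b1 b2 b4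

end Pool.Agent.PENT.COV
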