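import Pool.Agent.Lib_helper39.COV.Defs
import Pool.Agent.Lib_helper39.COVF.B1
import Pool.Agent.Lib_helper39.COVF.B2
import Pool.Agent.Lib_helper39.COVF.B3
import Pool.Agent.Lib_helper39.COVF.B4
import Pool.Agent.Lib_helper39.COVF.B5
import Pool.Agent.Lib_helper39.COVF.B6
import Pool.Agent.Lib_helper39.COVF.B7
import Pool.Agent.Lib_helper39.COVF.B8

/-!
# COV, block B9a: estimates
-/

set_option autoImplicit false

namespace Pool.Agent.PENT.COV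

open Finset Pool.Agent.PENT.EQ

/-- the family over the good squares is equidistributed -/
theorem b9_eq {c₁ X₁ : ℝ} (H1 : ∀ X : ℝ, X₁ ≤ X →
    ∀ (A₁ A₂ : ℕ) (B₁ B₂ C₁ C₂ : ℤ),
    X ^ (1 / 2 - c₁) ≤ A₁ → A₁ ≤ A₂ → (A₂ : ℝ) ≤ X ^ (1 / 2 + c₁) → B₁ ≤ B₂ →
    (B₂ : ℝ) - B₁ ≤ X ^ (1 / 2 + c₁) → C₁ ≤ C₂ → (C₂ : ℝ) - C₁ ≤ X ^ (1 / 2 + c₁) →
      EqFam (EBox A₁ A₂ B₁ B₂ C₁ C₂) (fun t => QQ (emat t)) (X ^ c₁) (X ^ (1 - c₁)))
    {C1 K ρ : ℝ} {X D i : ℕ} {j : ℤ} (hC1 : 1 ≤ C1) (hK : 0 ≤ K) (hρ : 0 < ρ) (hρ1 : ρ ≤ C1)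
    (hX : X₁ ≤ X) (hD : 1 ≤ D)
    (hDX : 8 * (D : ℝ) ≤ Real.sqrt X)
    (hi : Real.sqrt X ≤ 2 * (i : ℝ) * D) (hi2 : (i : ℝ) * D ≤ 2 * Real.sqrt X)
    (h1 : (X : ℝ) ^ (1 / 2 - c₁) * 2 ≤ Real.sqrt X)
    (h2 : 4 * C1 * Real.sqrt X ≤ (X : ℝ) ^ (1 / 2 + c₁)) :
    EqFam (gdB K ρ X D i j) (fun t => QQ (emat t)) ((X : ℝ) ^ c₁) ((X : ℝ) ^ (1 - c₁)) := by
  have hD0 : (1 : ℝ) ≤ D := by exact_mod_cast hD
  have hs : 0 < Real.sqrt X := by linarith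
  have hX0 : (0 : ℝ) < X := Real.sqrt_pos.mp hs
  obtain ⟨hL0, hL1⟩ := b8_Lo (D := D) (i := i) (j := j) hρ hρ1 hs hi
  by_cases hB : ⌈Lo ρ X D i j + K * D⌉ ≤ ⌊2 * Lo ρ X D i j - K * D⌋
  · unfold gdB sqB
    apply H1 (X : ℝ) hX _ _ _ _ _ _
    · push_cast; linarith
    · exact Nat.mul_le_mul_right _ (Nat.le_succ i)
    · push_cast; nlinarith
    · exact hB
    · have e1 := Int.floor_le (2 * Lo ρ X D i j - K * D)
      have e2 := Int.le_ceil (Lo ρ X D i j + K * D)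
      have e3 : 0 ≤ K * D := by positivity
      have e4 : 2 * C1 * Real.sqrt X ≤ 4 * C1 * Real.sqrt X := by nlinarith
      linarith
    · nlinarith
    · push_cast
      nlinarith
  · apply b8_empty _ _ _ _ (by positivity)
    unfold gdB sqB EBox
    rw [Finset.Ioc_eq_empty (a := ⌈Lo ρ X D i j + K * D⌉) (by omega)]
    simp

theorem b9_det {g : ℤ × ℤ × ℤ × ℤ} : (QQ g).1 = g.1 ^ 2 + g.2.2.1 ^ 2 := rfl

/-- a form is determined by its first two entries -/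
theorem b9_det3 {q q' : ℤ × ℤ × ℤ} (h : q.1 * q.2.2 - q.2.1 ^ 2 = 1)
    (h' : q'.1 * q'.2.2 - q'.2.1 ^ 2 = 1) (h0 : 0 < q.1) (e1 : q.1 = q'.1) (e2 : q.2.1 = q'.2.1) :
    q = q' := by
  refine Prod.ext e1 (Prod.ext e2 ?_)
  rw [← e1, ← e2] at h'
  have h3 : q.1 * q.2.2 = q.1 * q'.2.2 := by linarith
  exact mul_left_cancel₀ h0.ne' h3

/-- the final estimate -/
theorem b9_num {K C1 Ca η δ M N s D E X T : ℝ} (hK : 0 ≤ K) (hC1 : 1 ≤ C1) (hCa : 1 ≤ Ca)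
    (hη0 : 0 < η) (hη1 : η ≤ 1 / 16) (hδ : 0 < δ)
    (hS : (160 * (4 * K + 4) + 224 * C1 + 32 * Ca) * η ≤ δ / 2)
    (hM0 : 0 ≤ M) (hM : M * η ^ 2 ≤ 10) (hN0 : 0 ≤ N) (hN : N * η ≤ 2) (hs : 1 ≤ s)
    (hs2 : s ^ 2 = X) (hD1 : 1 ≤ D) (hD : D ≤ 2 * (η * s)) (hE : 0 < E)
    (hTE : T * E ≤ X) (hT1 : 108 / (η ^ 2 * δ) ≤ T) (hTs : 8 * Ca / δ ≤ s) :
    ((M * (2 * D ^ 2 * (2 * K * D + 2) / s + E)) + (M * (2 * D ^ 2 * (2 * K * D + 2) / s + E) +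
      (3 * (N + 1)) * (2 * D ^ 2 * (4 * C1 * s) / s + E))) +
      (Ca * (8 * s * D + s) + Ca * (8 * s * D + s)) ≤ δ * X := by
  have hs0 : 0 < s := by linarith
  have hD0 : 0 < D := by linarith
  have hN1 : (N + 1) * η ≤ 17 / 8 := by
    have : (N + 1) * η = N * η + η := by ring
    linarith
  -- A1
  have e1 : 2 * K * D + 2 ≤ (2 * K + 2) * D := by nlinarith
  have e2 : D ^ 3 ≤ (2 * (η * s)) ^ 3 := pow_le_pow_left₀ hD0.le hD 3
  have A1 : 2 * D ^ 2 * (2 * K * D + 2) / s ≤ (4 * K + 4) * (8 * η ^ 3 * s ^ 2) := by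
    rw [div_le_iff₀ hs0]
    calc 2 * D ^ 2 * (2 * K * D + 2) ≤ 2 * D ^ 2 * ((2 * K + 2) * D) :=
          mul_le_mul_of_nonneg_left e1 (by positivity)
      _ = (4 * K + 4) * D ^ 3 := by ring
      _ ≤ (4 * K + 4) * (2 * (η * s)) ^ 3 := mul_le_mul_of_nonneg_left e2 (by linarith)
      _ = (4 * K + 4) * (8 * η ^ 3 * s ^ 2) * s := by ring
  have A1' : M * (2 * D ^ 2 * (2 * K * D + 2) / s) ≤ 80 * (4 * K + 4) * η * X := by
    calc M * (2 * D ^ 2 * (2 * K * D + 2) / s) ≤ M * ((4 * K + 4) * (8 * η ^ 3 * s ^ 2)) :=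
          mul_le_mul_of_nonneg_left A1 hM0
      _ = (M * η ^ 2) * ((4 * K + 4) * 8 * η * s ^ 2) := by ring
      _ ≤ 10 * ((4 * K + 4) * 8 * η * s ^ 2) :=
          mul_le_mul_of_nonneg_right hM (by positivity)
      _ = 80 * (4 * K + 4) * η * X := by rw [← hs2]; ring
  -- A2
  have e3 : D ^ 2 ≤ (2 * (η * s)) ^ 2 := pow_le_pow_left₀ hD0.le hD 2
  have A2 : (3 * (N + 1)) * (2 * D ^ 2 * (4 * C1 * s) / s) ≤ 224 * C1 * η * X := by
    have e4 : 2 * D ^ 2 * (4 * C1 * s) / s = 8 * C1 * D ^ 2 := by field_simp; ring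
    rw [e4]
    calc (3 * (N + 1)) * (8 * C1 * D ^ 2) ≤ (3 * (N + 1)) * (8 * C1 * (2 * (η * s)) ^ 2) := by
          apply mul_le_mul_of_nonneg_left _ (by positivity)
          exact mul_le_mul_of_nonneg_left e3 (by positivity)
      _ = ((N + 1) * η) * (96 * C1 * η * s ^ 2) := by ring
      _ ≤ 17 / 8 * (96 * C1 * η * s ^ 2) := mul_le_mul_of_nonneg_right hN1 (by positivity)
      _ ≤ 224 * C1 * η * s ^ 2 := by
          have : 0 ≤ C1 * η * s ^ 2 := by positivity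
          linarith
      _ = 224 * C1 * η * X := by rw [← hs2]
  -- A3
  have A3 : Ca * (8 * s * D + s) ≤ 16 * Ca * η * X + Ca * s := by
    have e5 : 8 * s * D ≤ 8 * s * (2 * (η * s)) := mul_le_mul_of_nonneg_left hD (by positivity)
    have e6 : Ca * (8 * s * D) ≤ Ca * (8 * s * (2 * (η * s))) :=
      mul_le_mul_of_nonneg_left e5 (by linarith)
    have e7 : Ca * (8 * s * (2 * (η * s))) = 16 * Ca * η * X := by rw [← hs2]; ring
    linarith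
  -- A5
  have A5 : 2 * Ca * s ≤ δ / 4 * X := by
    rw [div_le_iff₀ hδ] at hTs
    have : 8 * Ca * s ≤ s * δ * s := mul_le_mul_of_nonneg_right hTs hs0.le
    rw [← hs2]
    linarith
  -- A4
  have A4 : (2 * M + 3 * (N + 1)) * E ≤ δ / 4 * X := by
    have e8 : (2 * M + 3 * (N + 1)) * η ^ 2 ≤ 27 := by
      have e9 : 3 * ((N + 1) * η) * η ≤ 3 * (17 / 8) * 1 := by
        have h1 : 0 ≤ (N + 1) * η := by positivity
        apply mul_le_mul (by linarith) (by linarith) hη0.le (by norm_num)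
      have : (2 * M + 3 * (N + 1)) * η ^ 2 = 2 * (M * η ^ 2) + 3 * ((N + 1) * η) * η := by ring
      linarith
    have e10 : 2 * M + 3 * (N + 1) ≤ δ / 4 * (108 / (η ^ 2 * δ)) := by
      have : δ / 4 * (108 / (η ^ 2 * δ)) = 27 / η ^ 2 := by field_simp; norm_num
      rw [this, le_div_iff₀ (by positivity)]
      exact e8
    calc (2 * M + 3 * (N + 1)) * E ≤ (δ / 4 * (108 / (η ^ 2 * δ))) * E :=
          mul_le_mul_of_nonneg_right e10 hE.le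
      _ ≤ (δ / 4 * T) * E := by
          apply mul_le_mul_of_nonneg_right _ hE.le
          exact mul_le_mul_of_nonneg_left hT1 (by linarith)
      _ = δ / 4 * (T * E) := by ring
      _ ≤ δ / 4 * X := mul_le_mul_of_nonneg_left hTE (by linarith)
  have hX : 0 < X := by rw [← hs2]; positivity
  have hS' : (160 * (4 * K + 4) + 224 * C1 + 32 * Ca) * η * X ≤ δ / 2 * X :=
    mul_le_mul_of_nonneg_right hS hX.le
  have h1 : M * (2 * D ^ 2 * (2 * K * D + 2) / s + E) =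
    M * (2 * D ^ 2 * (2 * K * D + 2) / s) + M * E := by ring
  have h2 : (3 * (N + 1)) * (2 * D ^ 2 * (4 * C1 * s) / s + E) =
    (3 * (N + 1)) * (2 * D ^ 2 * (4 * C1 * s) / s) + 3 * (N + 1) * E := by ring
  have h3 : (2 * M + 3 * (N + 1)) * E = 2 * (M * E) + 3 * (N + 1) * E := by ring
  have h4 : (160 * (4 * K + 4) + 224 * C1 + 32 * Ca) * η * X =
    2 * (80 * (4 * K + 4) * η * X) + 224 * C1 * η * X + 2 * (16 * Ca * η * X) := by ring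
  rw [h1, h2]
  rw [h3] at A4
  rw [h4] at hS'
  linarith

end Pool.Agent.PENT.COV
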