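import Pool.Agent.Lib_helper39.COV.Defs
import Pool.Agent.Lib_helper39.COVF.B1
import Pool.Agent.Lib_helper39.COVF.B2
import Pool.Agent.Lib_helper39.COVF.B3
import Pool.Agent.Lib_helper39.COVF.B4
import Pool.Agent.Lib_helper39.COVF.B5
import Pool.Agent.Lib_helper39.COVF.B6
import Pool.Agent.Lib_helper39.COVF.B7
import Pool.Agent.Lib_helper39.COVF.B8
import Pool.Agent.Lib_helper39.COVF.B9a

/-!
# COV, block B9b: the set of covered forms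
-/

set_option autoImplicit false

namespace Pool.Agent.PENT.COV

open Finset Pool.Agent.PENT.EQ

/-- the good squares -/
noncomputable def b9_IG (X D N : ℕ) : Finset (ℕ × ℤ) := by
  classical
  exact (b8_I X D N).filter (fun v => Gq X D v.1 v.2)

theorem b9_mem_IG {X D N : ℕ} {v : ℕ × ℤ} : v ∈ b9_IG X D N ↔ v ∈ b8_I X D N ∧ Gq X D v.1 v.2 := by
  classical
  unfold b9_IG
  rw [mem_filter]

theorem b9_card_IG (X D N : ℕ) : (b9_IG X D N).card ≤ (b8_I X D N).card := by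
  classical
  unfold b9_IG
  exact card_filter_le _ _

/-- the triples over the good squares -/
noncomputable def b9_T (K ρ : ℝ) (X D N : ℕ) : Finset (ℤ × ℤ × ℤ) :=
  (b9_IG X D N).biUnion (fun v => gdB K ρ X D v.1 v.2)

/-- their forms -/
noncomputable def b9_O (K ρ : ℝ) (X D N : ℕ) : Finset (ℤ × ℤ × ℤ) :=
  (b9_T K ρ X D N).image (fun t => QQ (emat t))

theorem b9_mem_J {X D N : ℕ} {v : ℕ × ℤ} : v ∈ b8_J X D N ↔ v ∈ b8_I X D N ∧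
    (v.2 = v.1 ∨ v.2 = -(v.1 : ℤ) - 1 ∨ v.2 = -(v.1 : ℤ) - 2) := by
  classical
  unfold b8_J
  rw [mem_filter]

theorem b9_in {C1 ρ : ℝ} {X D N : ℕ} (hC1 : 1 ≤ C1) (hρ : 0 < ρ) (hρ1 : ρ ≤ C1) (hD : 1 ≤ D)
    (hDX : 8 * (D : ℝ) ≤ Real.sqrt X) (t : ℤ × ℤ × ℤ) (ht : t ∈ b9_T (6 * C1 + 1) ρ X D N) :
    t.1 * (emat t).2.2.2 - t.2.1 * t.2.2 = 1 ∧ |t.2.2| < t.1 ∧
    (QQ (emat t)).1 * (QQ (emat t)).2.2 - (QQ (emat t)).2.1 ^ 2 = 1 ∧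
    (X : ℤ) < (QQ (emat t)).1 ∧ (QQ (emat t)).1 ≤ 2 * X ∧
    ρ * X < ((QQ (emat t)).2.1 : ℝ) ∧ ((QQ (emat t)).2.1 : ℝ) ≤ 2 * ρ * X := by
  unfold b9_T at ht
  rw [mem_biUnion] at ht
  obtain ⟨v, hv, hvt⟩ := ht
  rw [b9_mem_IG] at hv
  exact inside C1 ρ X D v.1 v.2 hC1 hρ hρ1 hD hDX hv.2 t hvt

theorem b9_inj {C1 ρ : ℝ} {X D N : ℕ} (hC1 : 1 ≤ C1) (hρ : 0 < ρ) (hρ1 : ρ ≤ C1) (hD : 1 ≤ D)
    (hDX : 8 * (D : ℝ) ≤ Real.sqrt X) :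
    Set.InjOn (fun t => QQ (emat t)) (b9_T (6 * C1 + 1) ρ X D N : Set (ℤ × ℤ × ℤ)) := by
  intro t ht t' ht' hQ
  obtain ⟨i1, i2, -⟩ := b9_in hC1 hρ hρ1 hD hDX t (Finset.mem_coe.1 ht)
  obtain ⟨j1, j2, -⟩ := b9_in hC1 hρ hρ1 hD hDX t' (Finset.mem_coe.1 ht')
  have h1 := QQ_inj_cone (emat t) (emat t') i1 j1 i2 j2 hQ
  have e1 : t.1 = t'.1 := congrArg (fun g => g.1) h1
  have e2 : t.2.1 = t'.2.1 := congrArg (fun g => g.2.1) h1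
  have e3 : t.2.2 = t'.2.2 := congrArg (fun g => g.2.2.1) h1
  exact Prod.ext e1 (Prod.ext e2 e3)

theorem b9_memO {C1 ρ : ℝ} {X D N : ℕ} (hC1 : 1 ≤ C1) (hρ : 0 < ρ) (hρ1 : ρ ≤ C1) (hD : 1 ≤ D)
    (hDX : 8 * (D : ℝ) ≤ Real.sqrt X) (q : ℤ × ℤ × ℤ) (hq : q ∈ b9_O (6 * C1 + 1) ρ X D N) :
    q.1 * q.2.2 - q.2.1 ^ 2 = 1 ∧ (X : ℤ) < q.1 ∧
      q.1 ≤ 2 * X ∧ ρ * X < (q.2.1 : ℝ) ∧ (q.2.1 : ℝ) ≤ 2 * ρ * X := by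
  unfold b9_O at hq
  rw [mem_image] at hq
  obtain ⟨t, ht, rfl⟩ := hq
  obtain ⟨-, -, i3⟩ := b9_in hC1 hρ hρ1 hD hDX t ht
  exact i3

/-- a member of the box -/
theorem b9_box {ρ : ℝ} {X : ℕ} (hρ : 0 < ρ) {q : ℤ × ℤ × ℤ}
    (h : q.1 * q.2.2 - q.2.1 ^ 2 = 1 ∧ (X : ℤ) < q.1 ∧
      q.1 ≤ 2 * X ∧ ρ * X < (q.2.1 : ℝ) ∧ (q.2.1 : ℝ) ≤ 2 * ρ * X) :
    (q.1.toNat, q.2.1.toNat) ∈ Pool.Agent.PATH.Box X ρ ∧ (X : ℝ) < ((q.1.toNat : ℕ) : ℝ) ∧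
      ((q.1.toNat : ℕ) : ℝ) ≤ 2 * X ∧ 0 < q.1 ∧ 0 < q.2.1 := by
  obtain ⟨q1, q2, q3, q4, q5⟩ := h
  have p1 : 0 < q.1 := by omega
  have p2 : (0 : ℝ) < (q.2.1 : ℝ) := by
    have : 0 ≤ ρ * X := by positivity
    linarith
  have p3 : 0 < q.2.1 := by exact_mod_cast p2
  have r1 : ((q.1.toNat : ℕ) : ℤ) = q.1 := Int.toNat_of_nonneg p1.le
  have r2 : ((q.2.1.toNat : ℕ) : ℤ) = q.2.1 := Int.toNat_of_nonneg p3.le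
  have r1' : ((q.1.toNat : ℕ) : ℝ) = (q.1 : ℝ) := by exact_mod_cast congrArg (Int.cast (R := ℝ)) r1
  have r2' : ((q.2.1.toNat : ℕ) : ℝ) = (q.2.1 : ℝ) := by
    exact_mod_cast congrArg (Int.cast (R := ℝ)) r2
  have w1 : (X : ℝ) < ((q.1.toNat : ℕ) : ℝ) := by
    rw [r1']
    exact_mod_cast q2
  have w2 : ((q.1.toNat : ℕ) : ℝ) ≤ 2 * X := by
    rw [r1']
    exact_mod_cast q3
  refine ⟨?_, w1, w2, p1, p3⟩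
  unfold Pool.Agent.PATH.Box
  rw [mem_filter, mem_product, mem_Ioc, mem_Icc]
  refine ⟨⟨⟨?_, ?_⟩, ?_, ?_⟩, ?_, ?_⟩
  · show X < q.1.toNat
    omega
  · show q.1.toNat ≤ 2 * X
    omega
  · show 1 ≤ q.2.1.toNat
    omega
  · show q.2.1.toNat ≤ ⌊2 * ρ * X⌋₊
    apply Nat.le_floor
    rw [r2']
    exact q5
  · show ρ * X < ((q.2.1.toNat : ℕ) : ℝ)
    rw [r2']
    exact q4
  · show q.1.toNat ∣ q.2.1.toNat ^ 2 + 1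
    have : ((q.1.toNat : ℕ) : ℤ) ∣ ((q.2.1.toNat ^ 2 + 1 : ℕ) : ℤ) := by
      push_cast
      rw [r1, r2]
      exact ⟨q.2.2, by linarith⟩
    exact_mod_cast this

/-- the cardinality -/
theorem b9_cardO {R ρ : ℝ} {X : ℕ} (O : Finset (ℤ × ℤ × ℤ)) (hρ : 0 < ρ)
    (hO : ∀ q ∈ O, q.1 * q.2.2 - q.2.1 ^ 2 = 1 ∧ (X : ℤ) < q.1 ∧
      q.1 ≤ 2 * X ∧ ρ * X < (q.2.1 : ℝ) ∧ (q.2.1 : ℝ) ≤ 2 * ρ * X)
    (h1 : (((Pool.Agent.PATH.Box X ρ).filter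
        (fun y => (X : ℝ) < (y.1 : ℝ) ∧ (y.1 : ℝ) ≤ 2 * X)).card : ℝ) ≤ R) :
    (O.card : ℝ) ≤ R := by
  have h2 : O.card ≤ ((Pool.Agent.PATH.Box X ρ).filter
      (fun y => (X : ℝ) < (y.1 : ℝ) ∧ (y.1 : ℝ) ≤ 2 * X)).card := by
    apply Finset.card_le_card_of_injOn (fun q => (q.1.toNat, q.2.1.toNat))
    · intro q hq
      obtain ⟨w1, w2, w3, -, -⟩ := b9_box hρ (hO q (Finset.mem_coe.1 hq))
      rw [Finset.mem_coe, mem_filter]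
      exact ⟨w1, w2, w3⟩
    · intro q hq q' hq' heq
      obtain ⟨-, -, -, p1, p3⟩ := b9_box hρ (hO q (Finset.mem_coe.1 hq))
      obtain ⟨-, -, -, p1', p3'⟩ := b9_box hρ (hO q' (Finset.mem_coe.1 hq'))
      obtain ⟨q1, -, -, -, -⟩ := hO q (Finset.mem_coe.1 hq)
      obtain ⟨q1', -, -, -, -⟩ := hO q' (Finset.mem_coe.1 hq')
      have f1 : q.1.toNat = q'.1.toNat := congrArg Prod.fst heq
      have f2 : q.2.1.toNat = q'.2.1.toNat := congrArg Prod.snd heq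
      exact b9_det3 q1 q1' p1 (by omega) (by omega)
  refine le_trans ?_ h1
  exact_mod_cast h2

/-- equidistribution -/
theorem b9_eqO {c₁ X₁ c : ℝ} (H1 : ∀ X : ℝ, X₁ ≤ X →
    ∀ (A₁ A₂ : ℕ) (B₁ B₂ C₁ C₂ : ℤ),
    X ^ (1 / 2 - c₁) ≤ A₁ → A₁ ≤ A₂ → (A₂ : ℝ) ≤ X ^ (1 / 2 + c₁) → B₁ ≤ B₂ →
    (B₂ : ℝ) - B₁ ≤ X ^ (1 / 2 + c₁) → C₁ ≤ C₂ → (C₂ : ℝ) - C₁ ≤ X ^ (1 / 2 + c₁) →
      EqFam (EBox A₁ A₂ B₁ B₂ C₁ C₂) (fun t => QQ (emat t)) (X ^ c₁) (X ^ (1 - c₁)))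
    {C1 ρ : ℝ} {X D N : ℕ} (hC1 : 1 ≤ C1) (hρ : 0 < ρ) (hρ1 : ρ ≤ C1)
    (hX : X₁ ≤ X) (hX1 : (1 : ℝ) ≤ X) (hD : 1 ≤ D)
    (hDX : 8 * (D : ℝ) ≤ Real.sqrt X)
    (q1 : (X : ℝ) ^ (1 / 2 - c₁) * 2 ≤ Real.sqrt X)
    (q2 : 4 * C1 * Real.sqrt X ≤ (X : ℝ) ^ (1 / 2 + c₁)) (hc : c ≤ c₁)
    (q3 : ((b8_I X D N).card : ℝ) * (X : ℝ) ^ (1 - c₁) ≤ (X : ℝ) ^ (1 - c)) :
    EqFam (b9_O (6 * C1 + 1) ρ X D N) (fun v => v) ((X : ℝ) ^ c) ((X : ℝ) ^ (1 - c)) := by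
  have hU : EqFam (b9_T (6 * C1 + 1) ρ X D N) (fun t => QQ (emat t)) ((X : ℝ) ^ c₁)
      (((b9_IG X D N).card : ℝ) * (X : ℝ) ^ (1 - c₁)) := by
    unfold b9_T
    apply eqfam_union
    · intro v _ v' _ hvv
      unfold gdB
      exact b8_disj hD hvv
    · intro v hv
      rw [b9_mem_IG, b8_mem_I] at hv
      exact b9_eq H1 hC1 (by linarith) hρ hρ1 hX hD hDX hv.1.2.1 hv.1.2.2.1 q1 q2
  unfold b9_O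
  apply gc4_image (b9_T (6 * C1 + 1) ρ X D N) _ (b9_inj hC1 hρ hρ1 hD hDX) _ _ hU
  · exact Real.rpow_le_rpow_of_exponent_le hX1 hc
  · refine le_trans ?_ q3
    apply mul_le_mul_of_nonneg_right _ (by positivity)
    exact_mod_cast b9_card_IG X D N

end Pool.Agent.PENT.COV
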