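import Pool.Agent.Lib_helper39.COV.Defs
import Pool.Agent.Lib_helper39.COVF.B1
import Pool.Agent.Lib_helper39.COVF.B2
import Pool.Agent.Lib_helper39.COVF.B3
import Pool.Agent.Lib_helper39.COVF.B4
import Pool.Agent.Lib_helper39.COVF.B5
import Pool.Agent.Lib_helper39.COVF.B6
import Pool.Agent.Lib_helper39.COVF.B7
import Pool.Agent.Lib_helper39.COVF.B8
import Pool.Agent.Lib_helper39.COVF.B9b

/-!
# COV, block B9c: the uncovered forms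
-/

set_option autoImplicit false

namespace Pool.Agent.PENT.COV

open Finset Pool.Agent.PENT.EQ

/-- the first margins -/
noncomputable def b9_m1 (K ρ : ℝ) (X D : ℕ) (v : ℕ × ℤ) : Finset (ℤ × ℤ × ℤ) :=
  sqB D v.1 v.2 ⌊Lo ρ X D v.1 v.2 - K * D⌋ ⌈Lo ρ X D v.1 v.2 + K * D⌉

/-- the second margins -/
noncomputable def b9_m2 (K ρ : ℝ) (X D : ℕ) (v : ℕ × ℤ) : Finset (ℤ × ℤ × ℤ) :=
  sqB D v.1 v.2 ⌊2 * Lo ρ X D v.1 v.2 - K * D⌋ ⌈2 * Lo ρ X D v.1 v.2 + K * D⌉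

/-- near the cone -/
noncomputable def b9_m3 (C1 : ℝ) (X D : ℕ) (v : ℕ × ℤ) : Finset (ℤ × ℤ × ℤ) :=
  sqB D v.1 v.2 0 ⌈3 * C1 * Real.sqrt X⌉

/-- the map to the pairs -/
noncomputable def b9_φ (t : ℤ × ℤ × ℤ) : ℕ × ℕ := ((QQ (emat t)).1.toNat, (QQ (emat t)).2.1.toNat)

theorem b9_boxX {ρ : ℝ} {X : ℕ} {y : ℕ × ℕ} (hy : y ∈ Pool.Agent.PATH.Box X ρ) :
    (X : ℝ) < y.1 ∧ (y.1 : ℝ) ≤ 2 * X := by
  unfold Pool.Agent.PATH.Box at hy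
  rw [mem_filter, mem_product, mem_Ioc] at hy
  exact ⟨by exact_mod_cast hy.1.1.1, by exact_mod_cast hy.1.1.2⟩

theorem b9_sub {C1 ρ : ℝ} {X D N : ℕ} (hC1 : 1 ≤ C1) (hρ : 1 / C1 ≤ ρ) (hρ1 : ρ ≤ C1)
    (hD : 1 ≤ D) (hDX : 8 * (D : ℝ) ≤ Real.sqrt X) (hX : 4 * C1 ≤ Real.sqrt X)
    (hiN : ∀ i : ℕ, (i : ℝ) * D ≤ 2 * Real.sqrt X → i ≤ N) (O : Finset (ℤ × ℤ × ℤ))
    (hO : O = b9_O (6 * C1 + 1) ρ X D N) :
    (Pool.Agent.PATH.Box X ρ).filter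
        (fun y : ℕ × ℕ => ∀ q ∈ O, q.1 ≠ (y.1 : ℤ) ∨ q.2.1 ≠ (y.2 : ℤ)) ⊆
      (((b8_I X D N).biUnion (b9_m1 (6 * C1 + 1) ρ X D) ∪
        ((b8_I X D N).biUnion (b9_m2 (6 * C1 + 1) ρ X D) ∪
          (b8_J X D N).biUnion (b9_m3 C1 X D))).image b9_φ) ∪
      ((Pool.Agent.PATH.Box X ρ).filter
        (fun y : ℕ × ℕ => (X : ℝ) < (y.1 : ℝ) ∧ (y.1 : ℝ) ≤ X + 8 * Real.sqrt X * D) ∪
      (Pool.Agent.PATH.Box X ρ).filter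
        (fun y : ℕ × ℕ => 2 * (X : ℝ) - 8 * Real.sqrt X * D < (y.1 : ℝ) ∧ (y.1 : ℝ) ≤ 2 * X)) := by
  intro y hy
  rw [mem_filter] at hy
  obtain ⟨hyB, hyO⟩ := hy
  obtain ⟨t, i, j, e1, e2, e3, e4, e5, e6, e7⟩ := cover C1 ρ X D hC1 hρ hρ1 hD hDX hX y hyB
  have hij : (i, j) ∈ b8_I X D N := by
    rw [b8_mem_I]
    exact ⟨hiN i e4, e3, e4, e5, e6⟩
  have hφt : b9_φ t = y := by
    unfold b9_φ
    rw [e1, e2]
    simp only [Int.toNat_natCast]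
  rw [mem_union]
  rcases e7 with h | h | h | h | h | h
  · exfalso
    have h1 : t ∈ b9_T (6 * C1 + 1) ρ X D N := by
      unfold b9_T
      rw [mem_biUnion]
      refine ⟨(i, j), ?_, h.2⟩
      rw [b9_mem_IG]
      exact ⟨hij, h.1⟩
    have h2 : QQ (emat t) ∈ O := by
      rw [hO]
      unfold b9_O
      rw [mem_image]
      exact ⟨t, h1, rfl⟩
    rcases hyO _ h2 with h3 | h3
    · exact h3 e1
    · exact h3 e2
  · left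
    rw [mem_image]
    refine ⟨t, ?_, hφt⟩
    exact mem_union_left _ (mem_biUnion.2 ⟨(i, j), hij, h⟩)
  · left
    rw [mem_image]
    refine ⟨t, ?_, hφt⟩
    exact mem_union_right _ (mem_union_left _ (mem_biUnion.2 ⟨(i, j), hij, h⟩))
  · left
    rw [mem_image]
    refine ⟨t, ?_, hφt⟩
    exact mem_union_right _ (mem_union_right _
      (mem_biUnion.2 ⟨(i, j), b9_mem_J.2 ⟨hij, h.1⟩, h.2⟩))
  · right
    apply mem_union_left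
    rw [mem_filter]
    exact ⟨hyB, (b9_boxX hyB).1, h⟩
  · right
    apply mem_union_right
    rw [mem_filter]
    exact ⟨hyB, h, (b9_boxX hyB).2⟩

/-- cardinalities -/
theorem b9_sum {α β ι : Type} [DecidableEq α] [DecidableEq β] (S : Finset β) (I J : Finset ι)
    (m1 m2 m3 : ι → Finset α) (φ : α → β) (B₁ B₂ : Finset β)
    (hsub : S ⊆ ((I.biUnion m1 ∪ (I.biUnion m2 ∪ J.biUnion m3)).image φ) ∪ (B₁ ∪ B₂))
    (M Q c1 c3 b1 b2 : ℝ) (hI : (I.card : ℝ) ≤ M) (hJ : (J.card : ℝ) ≤ Q) (hc1 : 0 ≤ c1)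
    (hc3 : 0 ≤ c3) (h1 : ∀ v ∈ I, ((m1 v).card : ℝ) ≤ c1) (h2 : ∀ v ∈ I, ((m2 v).card : ℝ) ≤ c1)
    (h3 : ∀ v ∈ J, ((m3 v).card : ℝ) ≤ c3) (hb1 : (B₁.card : ℝ) ≤ b1) (hb2 : (B₂.card : ℝ) ≤ b2) :
    (S.card : ℝ) ≤ (M * c1 + (M * c1 + Q * c3)) + (b1 + b2) := by
  have f1 := card_le_card hsub
  have f2 := f1.trans (card_union_le _ _)
  have f3 : ((I.biUnion m1 ∪ (I.biUnion m2 ∪ J.biUnion m3)).image φ).card ≤
      (∑ v ∈ I, (m1 v).card) + ((∑ v ∈ I, (m2 v).card) + ∑ v ∈ J, (m3 v).card) := by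
    refine card_image_le.trans ?_
    refine (card_union_le _ _).trans ?_
    refine Nat.add_le_add card_biUnion_le ?_
    refine (card_union_le _ _).trans ?_
    exact Nat.add_le_add card_biUnion_le card_biUnion_le
  have f4 := card_union_le B₁ B₂
  have f5 : S.card ≤
      ((∑ v ∈ I, (m1 v).card) + ((∑ v ∈ I, (m2 v).card) + ∑ v ∈ J, (m3 v).card)) +
        (B₁.card + B₂.card) := f2.trans (Nat.add_le_add f3 f4)
  have f6 : (S.card : ℝ) ≤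
      ((∑ v ∈ I, ((m1 v).card : ℝ)) + ((∑ v ∈ I, ((m2 v).card : ℝ)) +
        ∑ v ∈ J, ((m3 v).card : ℝ))) + ((B₁.card : ℝ) + B₂.card) := by
    exact_mod_cast f5
  have u1 : ∑ v ∈ I, ((m1 v).card : ℝ) ≤ M * c1 := by
    refine (Finset.sum_le_sum h1).trans ?_
    rw [sum_const, nsmul_eq_mul]
    exact mul_le_mul_of_nonneg_right hI hc1
  have u2 : ∑ v ∈ I, ((m2 v).card : ℝ) ≤ M * c1 := by
    refine (Finset.sum_le_sum h2).trans ?_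
    rw [sum_const, nsmul_eq_mul]
    exact mul_le_mul_of_nonneg_right hI hc1
  have u3 : ∑ v ∈ J, ((m3 v).card : ℝ) ≤ Q * c3 := by
    refine (Finset.sum_le_sum h3).trans ?_
    rw [sum_const, nsmul_eq_mul]
    exact mul_le_mul_of_nonneg_right hJ hc3
  linarith

/-- the number of uncovered forms -/
theorem b9_unc {c₂ X₂ : ℝ} (H2 : ∀ X : ℝ, X₂ ≤ X →
    ∀ (A₁ A₂ : ℕ) (B₁ B₂ C₁ C₂ : ℤ),
    X ^ (1 / 2 - c₂) ≤ A₁ → A₁ ≤ A₂ → (A₂ : ℝ) ≤ X ^ (1 / 2 + c₂) → B₁ ≤ B₂ →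
    (B₂ : ℝ) - B₁ ≤ X ^ (1 / 2 + c₂) → C₁ ≤ C₂ → (C₂ : ℝ) - C₁ ≤ X ^ (1 / 2 + c₂) →
      ((EBox A₁ A₂ B₁ B₂ C₁ C₂).card : ℝ) ≤
        ((A₂ : ℝ) - A₁) / A₁ * (((B₂ : ℝ) - B₁) * ((C₂ : ℝ) - C₁)) + X ^ (1 - c₂))
    {C1 ρ Ca E : ℝ} {X D N : ℕ} (hC1 : 1 ≤ C1) (hρ : 1 / C1 ≤ ρ) (hρ1 : ρ ≤ C1) (hXX : X₂ ≤ X)
    (hD : 1 ≤ D) (hDX : 8 * (D : ℝ) ≤ Real.sqrt X) (hX : 4 * C1 ≤ Real.sqrt X)
    (hiN : ∀ i : ℕ, (i : ℝ) * D ≤ 2 * Real.sqrt X → i ≤ N)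
    (H3 : ∀ u v : ℝ, (X : ℝ) ≤ u → u ≤ v → v ≤ 2 * X →
      (((Pool.Agent.PATH.Box X ρ).filter (fun y : ℕ × ℕ => u < (y.1 : ℝ) ∧ (y.1 : ℝ) ≤ v)).card : ℝ) ≤
        Ca * (v - u + Real.sqrt X)) (hE : E = (X : ℝ) ^ (1 - c₂))
    (h1 : (X : ℝ) ^ (1 / 2 - c₂) * 2 ≤ Real.sqrt X)
    (h2 : 3 * Real.sqrt X ≤ (X : ℝ) ^ (1 / 2 + c₂))
    (h3 : 2 * (6 * C1 + 1) * D + 2 ≤ (X : ℝ) ^ (1 / 2 + c₂))
    (h4 : 4 * C1 * Real.sqrt X ≤ (X : ℝ) ^ (1 / 2 + c₂)) (O : Finset (ℤ × ℤ × ℤ))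
    (hO : O = b9_O (6 * C1 + 1) ρ X D N) :
    (((Pool.Agent.PATH.Box X ρ).filter
        (fun y : ℕ × ℕ => ∀ q ∈ O, q.1 ≠ (y.1 : ℤ) ∨ q.2.1 ≠ (y.2 : ℤ))).card : ℝ) ≤
      ((((N : ℝ) + 1) * (2 * N + 3)) *
          (2 * (D : ℝ) ^ 2 * (2 * (6 * C1 + 1) * D + 2) / Real.sqrt X + E) +
        ((((N : ℝ) + 1) * (2 * N + 3)) *
          (2 * (D : ℝ) ^ 2 * (2 * (6 * C1 + 1) * D + 2) / Real.sqrt X + E) +
        (3 * ((N : ℝ) + 1)) * (2 * (D : ℝ) ^ 2 * (4 * C1 * Real.sqrt X) / Real.sqrt X + E))) +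
      (Ca * (8 * Real.sqrt X * D + Real.sqrt X) + Ca * (8 * Real.sqrt X * D + Real.sqrt X)) := by
  have hD0 : (1 : ℝ) ≤ D := by exact_mod_cast hD
  have hs : 0 < Real.sqrt X := by linarith
  have hX0 : (0 : ℝ) < X := Real.sqrt_pos.mp hs
  have hE0 : 0 < E := by rw [hE]; positivity
  have hs2 : Real.sqrt X ^ 2 = X := Real.sq_sqrt hX0.le
  have hsD : 8 * Real.sqrt X * D ≤ X := by
    calc 8 * Real.sqrt X * D = Real.sqrt X * (8 * D) := by ring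
      _ ≤ Real.sqrt X * Real.sqrt X := mul_le_mul_of_nonneg_left hDX hs.le
      _ = X := by rw [← sq, hs2]
  have hsD0 : 0 ≤ 8 * Real.sqrt X * D := by positivity
  have K0 : 0 ≤ 2 * (6 * C1 + 1) * D + 2 := by positivity
  apply b9_sum _ (b8_I X D N) (b8_J X D N) (b9_m1 (6 * C1 + 1) ρ X D) (b9_m2 (6 * C1 + 1) ρ X D)
    (b9_m3 C1 X D) b9_φ _ _ (b9_sub hC1 hρ hρ1 hD hDX hX hiN O hO)
  · exact b8_card_I X D N
  · exact b8_card_J X D N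
  · have : 0 ≤ 2 * (D : ℝ) ^ 2 * (2 * (6 * C1 + 1) * D + 2) / Real.sqrt X :=
      div_nonneg (mul_nonneg (by positivity) K0) hs.le
    linarith
  · have : 0 ≤ 2 * (D : ℝ) ^ 2 * (4 * C1 * Real.sqrt X) / Real.sqrt X := by positivity
    linarith
  · intro v hv
    rw [b8_mem_I] at hv
    unfold b9_m1
    rw [hE]
    apply b8_box H2 hXX hD hDX hv.2.1 hv.2.2.1 h1 h2 K0 _ h3
    have r1 := Int.ceil_lt_add_one (Lo ρ X D v.1 v.2 + (6 * C1 + 1) * D)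
    have r2 := Int.lt_floor_add_one (Lo ρ X D v.1 v.2 - (6 * C1 + 1) * D)
    linarith
  · intro v hv
    rw [b8_mem_I] at hv
    unfold b9_m2
    rw [hE]
    apply b8_box H2 hXX hD hDX hv.2.1 hv.2.2.1 h1 h2 K0 _ h3
    have r1 := Int.ceil_lt_add_one (2 * Lo ρ X D v.1 v.2 + (6 * C1 + 1) * D)
    have r2 := Int.lt_floor_add_one (2 * Lo ρ X D v.1 v.2 - (6 * C1 + 1) * D)
    linarith
  · intro v hv
    rw [b9_mem_J, b8_mem_I] at hv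
    unfold b9_m3
    rw [hE]
    apply b8_box H2 hXX hD hDX hv.1.2.1 hv.1.2.2.1 h1 h2 (by positivity) _ h4
    have r1 := Int.ceil_lt_add_one (3 * C1 * Real.sqrt X)
    have r3 : 1 ≤ C1 * Real.sqrt X := by nlinarith
    rw [Int.cast_zero]
    linarith
  · have := H3 (X : ℝ) (X + 8 * Real.sqrt X * D) le_rfl (by linarith) (by linarith)
    rw [show (X : ℝ) + 8 * Real.sqrt X * D - X + Real.sqrt X =
      8 * Real.sqrt X * D + Real.sqrt X by ring] at this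
    exact this
  · have := H3 (2 * X - 8 * Real.sqrt X * D : ℝ) (2 * X) (by linarith) (by linarith) le_rfl
    rw [show 2 * (X : ℝ) - (2 * X - 8 * Real.sqrt X * D) + Real.sqrt X =
      8 * Real.sqrt X * D + Real.sqrt X by ring] at this
    exact this

end Pool.Agent.PENT.COV
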